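import Pool.Agent.Helper97.TX.Coll

/-!
TY-Y2 (MP_464c42_nt). The count of (b2): `a z + a h` is divisible by `d ^ L`, and a property `R` of `(a m, a t)` with at most `K` pairs of every given sum.
Proof: as `two` (`Helper97/TX/Two.lean`). Split `T` by `d ≤ V` and the values `a k`, `k ≠ z, h, m, t` (`n - 2` indices); in one class the pairs
`(a z, a h)` are at most `C2 √(Y z Y h) N^(c + 2 δ)` (`pair_mod2`, `collisionR`), and given such a pair `a m + a t` is fixed by the sum: at most `K`.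
-/

set_option autoImplicit false

open Pool.Agent.Helper87.Camp Pool.Agent.Helper10 Pool.Agent.Helper91.CPX

namespace Pool.Agent.Helper87.TY

open Pool.Agent.Helper24.TU Pool.Agent.Helper24.TV Pool.Agent.Helper87.RP Pool.Agent.Helper97.TX

private theorem four0 (n E : ℕ) (hn : 2 ≤ n) (hE : 1 ≤ E) (S : Finset ℕ) (ε : ℝ) (hε : 0 < ε) :
    ∃ C : ℝ, 1 ≤ C ∧ ∀ (N : ℕ) (Y : Fin (n + 2) → ℕ), 1 ≤ N → (∀ i, 1 ≤ Y i) →
      ∀ (LB V : ℕ) (K : ℝ), 0 ≤ K → ∀ z h m t : Fin (n + 2), z ≠ h → z ≠ m → z ≠ t → h ≠ m →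
      h ≠ t → m ≠ t → ∀ T : Finset (Fin (n + 2) → ℤ),
      (∀ a ∈ T, (∀ i, a i ∈ Rset S (Y i) N) ∧ ∑ i, a i = 0 ∧
        ∃ d : ℕ, 1 ≤ d ∧ d ≤ V ∧ d ^ LB ≤ N ∧ ((d ^ LB : ℕ) : ℤ) ∣ a z + a h ∧
          IsCoprime (a z) (d : ℤ) ∧ IsCoprime (a h) (d : ℤ) ∧
          (2 ^ E * Y z) ^ 4 ≤ d ^ LB ∧ (2 ^ E * Y h) ^ 4 ≤ d ^ LB) →
      (∀ (c : ℤ) (P : Finset (ℤ × ℤ)), (∀ p ∈ P, p.1 + p.2 = c ∧ ∃ a ∈ T, p = (a m, a t)) →
        (P.card : ℝ) ≤ K) →
      (T.card : ℝ) ≤ C * (V : ℝ) *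
        (((∏ k ∈ (((Finset.univ.erase z).erase h).erase m).erase t, (Y k : ℝ)) *
          Real.sqrt ((Y z : ℝ) * Y h)) * (K * (N : ℝ) ^ (2 / ((E : ℝ) + 1) + ε))) := by
  classical
  obtain ⟨δ, hδ⟩ : ∃ δ : ℝ, δ = ε / ((n : ℝ) + 4) := ⟨_, rfl⟩
  have hδ0 : 0 < δ := by rw [hδ]; positivity
  obtain ⟨C1, hC1, h1⟩ := rset_count S δ hδ0
  obtain ⟨C2, hC2, h2⟩ := collisionR S E hE δ hδ0
  refine ⟨C1 ^ (n - 2) * C2, one_le_mul_of_one_le_of_one_le (one_le_pow₀ hC1) hC2,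
    fun N Y hN hY LB V K hK0 z j m t hzj hzm hzt hjm hjt hmt T hT hin => ?_⟩
  have hN1 : (1 : ℝ) ≤ N := by exact_mod_cast hN
  have hN0 : (0 : ℝ) < N := by linarith
  obtain ⟨c, hc⟩ : ∃ c : ℝ, c = 2 / ((E : ℝ) + 1) := ⟨_, rfl⟩
  rw [← hc] at h2 ⊢
  have hC20 : (0 : ℝ) ≤ C2 := by linarith
  have m1 : j ∈ (Finset.univ : Finset (Fin (n + 2))).erase z :=
    Finset.mem_erase.2 ⟨hzj.symm, Finset.mem_univ _⟩
  have m2 : m ∈ ((Finset.univ : Finset (Fin (n + 2))).erase z).erase j :=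
    Finset.mem_erase.2 ⟨hjm.symm, Finset.mem_erase.2 ⟨hzm.symm, Finset.mem_univ _⟩⟩
  have m3 : t ∈ (((Finset.univ : Finset (Fin (n + 2))).erase z).erase j).erase m :=
    Finset.mem_erase.2 ⟨hmt.symm, Finset.mem_erase.2 ⟨hjt.symm, Finset.mem_erase.2 ⟨hzt.symm,
      Finset.mem_univ _⟩⟩⟩
  obtain ⟨G, hG⟩ : ∃ G : Finset (Fin (n + 2)),
    G = (((Finset.univ.erase z).erase j).erase m).erase t := ⟨_, rfl⟩
  rw [← hG]
  have hsplit : ∀ a : Fin (n + 2) → ℤ,
      ∑ i, a i = a z + (a j + (a m + (a t + ∑ i ∈ G, a i))) := by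
    intro a
    rw [hG, ← Finset.add_sum_erase Finset.univ a (Finset.mem_univ z),
      ← Finset.add_sum_erase _ a m1, ← Finset.add_sum_erase _ a m2, ← Finset.add_sum_erase _ a m3]
  have hGc : G.card = n - 2 := by
    rw [hG, Finset.card_erase_of_mem m3, Finset.card_erase_of_mem m2,
      Finset.card_erase_of_mem m1, Finset.card_erase_of_mem (Finset.mem_univ z),
      Finset.card_univ, Fintype.card_fin]
    omega
  have hmemG : ∀ i, i ≠ z → i ≠ j → i ≠ m → i ≠ t → i ∈ G := by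
    intro i e1 e2 e3 e4
    rw [hG, Finset.mem_erase, Finset.mem_erase, Finset.mem_erase, Finset.mem_erase]
    exact ⟨e4, e3, e2, e1, Finset.mem_univ _⟩
  choose! gd hd1 hdV hdN hdiv hcz hcj hbz hbj using fun a ha => (hT a ha).2.2
  obtain ⟨K1, hK1⟩ : ∃ K : ℝ,
    K = C2 * (Real.sqrt ((Y z : ℝ) * Y j) * (N : ℝ) ^ (c + 2 * δ)) := ⟨_, rfl⟩
  have hK10 : 0 ≤ K1 := by rw [hK1]; positivity
  have hcoll : ∀ q y : ℕ, 1 ≤ q → q ≤ N → 1 ≤ y → (2 ^ E * y) ^ 4 ≤ q →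
      (coll ((Rset S y N).filter (fun a => IsCoprime a (q : ℤ)))
        (fun a => (a : ZMod q)) : ℝ) ≤
        C2 * (N : ℝ) ^ δ * ((y : ℝ) * (N : ℝ) ^ (c + δ)) := by
    intro q y hq hqN hy hb
    refine (h2 y N q hy hN hq hb).trans ?_
    refine mul_le_mul_of_nonneg_right ?_ (by positivity)
    refine mul_le_mul_of_nonneg_left ?_ (by linarith)
    exact Real.rpow_le_rpow (Nat.cast_nonneg _) (by exact_mod_cast hqN) hδ0.le
  have h8 : (N : ℝ) ^ (c + 2 * δ) = (N : ℝ) ^ δ * (N : ℝ) ^ (c + δ) := by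
    rw [← Real.rpow_add hN0]
    congr 1
    ring
  let R : (Fin (n + 2) → ℤ) → ((i : G) → ℤ) := fun a i => a i.1
  let U : Finset (ℕ × ((i : G) → ℤ)) :=
    Finset.Icc 1 V ×ˢ Fintype.piFinset (fun i : G => Rset S (Y i.1) N)
  have hstep : (T.card : ℝ) ≤ K * K1 * (U.card : ℝ) := by
    apply card_le_real (fun a => (gd a, R a))
    · intro a ha
      rw [Finset.mem_product, Finset.mem_Icc, Fintype.mem_piFinset]
      exact ⟨⟨hd1 a ha, hdV a ha⟩, fun i => (hT a ha).1 i.1⟩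
    · rintro ⟨d, u⟩ _
      rcases (T.filter (fun a => (gd a, R a) = (d, u))).eq_empty_or_nonempty
        with h0 | ⟨a1, ha1⟩
      · rw [h0, Finset.card_empty, Nat.cast_zero]
        exact mul_nonneg hK0 hK10
      · have hkey : ∀ a ∈ T.filter (fun a => (gd a, R a) = (d, u)),
            a ∈ T ∧ gd a = d ∧ R a = u := by
          intro a ha
          rw [Finset.mem_filter, Prod.mk.injEq] at ha
          exact ⟨ha.1, ha.2.1, ha.2.2⟩
        obtain ⟨F, hF⟩ : ∃ F : Finset (Fin (n + 2) → ℤ),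
          F = T.filter (fun a => (gd a, R a) = (d, u)) := ⟨_, rfl⟩
        rw [← hF] at hkey ha1 ⊢
        obtain ⟨hT1, e1, e2⟩ := hkey a1 ha1
        have g1 : 1 ≤ d := by rw [← e1]; exact hd1 a1 hT1
        have g2 : d ^ LB ≤ N := by rw [← e1]; exact hdN a1 hT1
        have g3 : (2 ^ E * Y z) ^ 4 ≤ d ^ LB := by rw [← e1]; exact hbz a1 hT1
        have g4 : (2 ^ E * Y j) ^ 4 ≤ d ^ LB := by rw [← e1]; exact hbj a1 hT1
        have hq1 : 1 ≤ d ^ LB := Nat.one_le_pow _ _ g1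
        have hneq : NeZero (d ^ LB) := ⟨by omega⟩
        obtain ⟨A, hA⟩ : ∃ A : Finset ℤ,
          A = (Rset S (Y z) N).filter (fun a => IsCoprime a ((d ^ LB : ℕ) : ℤ)) := ⟨_, rfl⟩
        obtain ⟨B, hB⟩ : ∃ B : Finset ℤ,
          B = (Rset S (Y j) N).filter (fun a => IsCoprime a ((d ^ LB : ℕ) : ℤ)) := ⟨_, rfl⟩
        have hle : (F.card : ℝ) ≤
            K * (((A ×ˢ B).filter (fun p => ((d ^ LB : ℕ) : ℤ) ∣ p.1 + p.2 - 0)).card : ℝ) := by
          apply card_le_real (fun a => (a z, a j))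
          · intro a ha
            obtain ⟨hTa, f1, f2⟩ := hkey a ha
            have k1 := hcz a hTa
            have k2 := hcj a hTa
            have k3 := hdiv a hTa
            rw [f1] at k1 k2 k3
            rw [Finset.mem_filter, Finset.mem_product, hA, hB, Finset.mem_filter,
              Finset.mem_filter]
            refine ⟨⟨⟨(hT a hTa).1 z, ?_⟩, ⟨(hT a hTa).1 j, ?_⟩⟩, ?_⟩
            · push_cast
              exact k1.pow_right
            · push_cast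
              exact k2.pow_right
            · change _ ∣ a z + a j - 0
              rw [sub_zero]
              exact k3
          · rintro ⟨x, y⟩ _
            obtain ⟨W, hW⟩ : ∃ W : Finset (Fin (n + 2) → ℤ),
              W = F.filter (fun a => (a z, a j) = (x, y)) := ⟨_, rfl⟩
            rw [← hW]
            have hWk : ∀ a ∈ W, a ∈ T ∧ R a = u ∧ a z = x ∧ a j = y := by
              intro a ha
              rw [hW, Finset.mem_filter, Prod.mk.injEq] at ha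
              exact ⟨(hkey a ha.1).1, (hkey a ha.1).2.2, ha.2.1, ha.2.2⟩
            have hsm : ∀ a ∈ W, a m + a t = -(x + y + ∑ i ∈ G, a1 i) := by
              intro a ha
              obtain ⟨hTa, hRa, hx, hy⟩ := hWk a ha
              have s1 := (hT a hTa).2.1
              rw [hsplit] at s1
              have s3 : ∑ i ∈ G, a i = ∑ i ∈ G, a1 i := by
                refine Finset.sum_congr rfl fun i hi => ?_
                have h5 : R a = R a1 := by rw [hRa, e2]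
                exact congrFun h5 ⟨i, hi⟩
              rw [s3, hx, hy] at s1
              linarith
            have hinj : Set.InjOn (fun a : Fin (n + 2) → ℤ => (a m, a t)) (W : Set _) := by
              intro a ha b hb hab
              rw [Finset.mem_coe] at ha hb
              obtain ⟨-, hRa, hax, hay⟩ := hWk a ha
              obtain ⟨-, hRb, hbx, hby⟩ := hWk b hb
              have hRR : R a = R b := by rw [hRa, hRb]
              have i1 : a z = b z := by rw [hax, hbx]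
              have i2 : a j = b j := by rw [hay, hby]
              have i3 : a m = b m := congrArg Prod.fst hab
              have i4 : a t = b t := congrArg Prod.snd hab
              funext i
              by_cases q1 : i = z
              · rw [q1]; exact i1
              · by_cases q2 : i = j
                · rw [q2]; exact i2
                · by_cases q3 : i = m
                  · rw [q3]; exact i3
                  · by_cases q4 : i = t
                    · rw [q4]; exact i4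
                    · exact congrFun hRR ⟨i, hmemG i q1 q2 q3 q4⟩
            rw [← Finset.card_image_of_injOn hinj]
            refine hin (-(x + y + ∑ i ∈ G, a1 i)) _ ?_
            intro p hp
            rw [Finset.mem_image] at hp
            obtain ⟨a, ha, rfl⟩ := hp
            exact ⟨hsm a ha, a, (hWk a ha).1, rfl⟩
        have hpair : (((A ×ˢ B).filter (fun p => ((d ^ LB : ℕ) : ℤ) ∣ p.1 + p.2 - 0)).card : ℝ) ≤
            K1 := by
          have h4 := hcoll (d ^ LB) (Y z) hq1 g2 (hY z) g3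
          have h5 := hcoll (d ^ LB) (Y j) hq1 g2 (hY j) g4
          rw [← hA] at h4
          rw [← hB] at h5
          refine (sq_le_sq₀ (Nat.cast_nonneg _) hK10).1 ?_
          refine (pair_mod2 (d ^ LB) A B 0).trans ?_
          have h7 : K1 ^ 2 = (C2 * (N : ℝ) ^ δ * ((Y z : ℝ) * (N : ℝ) ^ (c + δ))) *
              (C2 * (N : ℝ) ^ δ * ((Y j : ℝ) * (N : ℝ) ^ (c + δ))) := by
            have h9 : Real.sqrt ((Y z : ℝ) * Y j) ^ 2 = (Y z : ℝ) * Y j :=
              Real.sq_sqrt (by positivity)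
            rw [hK1, h8, mul_pow, mul_pow, h9]
            ring
          rw [h7]
          exact mul_le_mul h4 h5 (Nat.cast_nonneg _) (by positivity)
        exact hle.trans (mul_le_mul_of_nonneg_left hpair hK0)
  have hUc : (U.card : ℝ) ≤ (V : ℝ) * (C1 ^ (n - 2) * ((∏ i ∈ G, (Y i : ℝ)) *
      (N : ℝ) ^ (δ * ((n - 2 : ℕ) : ℝ)))) := by
    have e1 : U.card = V * ∏ i : G, (Rset S (Y i.1) N).card := by
      change (Finset.Icc 1 V ×ˢ Fintype.piFinset (fun i : G => Rset S (Y i.1) N)).card = _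
      rw [Finset.card_product, Nat.card_Icc, Nat.add_sub_cancel, Fintype.card_piFinset]
    rw [e1]
    push_cast
    refine mul_le_mul_of_nonneg_left ?_ (Nat.cast_nonneg _)
    have e2 : ∏ i : G, ((Rset S (Y i.1) N).card : ℝ) ≤
        ∏ i : G, (C1 * ((Y i.1 : ℝ) * (N : ℝ) ^ δ)) :=
      Finset.prod_le_prod (fun i _ => Nat.cast_nonneg _) fun i _ => h1 (Y i.1) N (hY i.1) hN
    refine e2.trans (le_of_eq ?_)
    rw [Finset.prod_coe_sort G (fun i => C1 * ((Y i : ℝ) * (N : ℝ) ^ δ)), Finset.prod_mul_distrib,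
      Finset.prod_mul_distrib, Finset.prod_const, Finset.prod_const, hGc, ← Real.rpow_natCast
        ((N : ℝ) ^ δ), ← Real.rpow_mul hN0.le]
  have hexp : (N : ℝ) ^ (c + 2 * δ) * (N : ℝ) ^ (δ * ((n - 2 : ℕ) : ℝ)) ≤
      (N : ℝ) ^ (c + ε) := by
    rw [← Real.rpow_add hN0]
    refine Real.rpow_le_rpow_of_exponent_le hN1 ?_
    have h3 : ((n : ℝ) + 4) * δ = ε := by
      rw [hδ]
      field_simp
    have h4 : ((n - 2 : ℕ) : ℝ) = (n : ℝ) - 2 := by
      rw [Nat.cast_sub hn]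
      norm_num
    rw [h4]
    nlinarith
  have hP0 : (0 : ℝ) ≤ ∏ i ∈ G, (Y i : ℝ) := Finset.prod_nonneg fun i _ => Nat.cast_nonneg _
  have hC1p : (0 : ℝ) ≤ C1 ^ (n - 2) := by positivity
  calc (T.card : ℝ) ≤ K * K1 * (U.card : ℝ) := hstep
    _ ≤ K * K1 * ((V : ℝ) * (C1 ^ (n - 2) * ((∏ i ∈ G, (Y i : ℝ)) *
      (N : ℝ) ^ (δ * ((n - 2 : ℕ) : ℝ))))) :=
        mul_le_mul_of_nonneg_left hUc (mul_nonneg hK0 hK10)
    _ = C1 ^ (n - 2) * C2 * (V : ℝ) * (((∏ i ∈ G, (Y i : ℝ)) *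
        Real.sqrt ((Y z : ℝ) * Y j)) * (K * ((N : ℝ) ^ (c + 2 * δ) *
            (N : ℝ) ^ (δ * ((n - 2 : ℕ) : ℝ))))) := by
        rw [hK1]
        ring
    _ ≤ _ := by gcongr

theorem four (n E : ℕ) (hn : 2 ≤ n) (hE : 1 ≤ E) (S : Finset ℕ) (ε : ℝ) (hε : 0 < ε) :
    ∃ C : ℝ, 1 ≤ C ∧ ∀ (N : ℕ) (Y : Fin (n + 2) → ℕ), 1 ≤ N → (∀ i, 1 ≤ Y i) →
      ∀ (L V : ℕ) (K : ℝ), 0 ≤ K → ∀ z h m t : Fin (n + 2), z ≠ h → z ≠ m → z ≠ t → h ≠ m →
      h ≠ t → m ≠ t → ∀ R : ℤ → ℤ → Prop,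
      (∀ (c : ℤ) (P : Finset (ℤ × ℤ)), (∀ p ∈ P, p.1 ∈ Rset S (Y m) N ∧ p.2 ∈ Rset S (Y t) N ∧
        p.1 + p.2 = c ∧ R p.1 p.2) → (P.card : ℝ) ≤ K) →
      ∀ T : Finset (Fin (n + 2) → ℤ),
      (∀ a ∈ T, (∀ i, a i ∈ Rset S (Y i) N) ∧ ∑ i, a i = 0 ∧
        (∃ d : ℕ, 1 ≤ d ∧ d ≤ V ∧ d ^ L ≤ N ∧ ((d ^ L : ℕ) : ℤ) ∣ a z + a h ∧
          IsCoprime (a z) (d : ℤ) ∧ IsCoprime (a h) (d : ℤ) ∧
          (2 ^ E * Y z) ^ 4 ≤ d ^ L ∧ (2 ^ E * Y h) ^ 4 ≤ d ^ L) ∧ R (a m) (a t)) →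
      (T.card : ℝ) ≤ C * (V : ℝ) *
        (((∏ k ∈ (((Finset.univ.erase z).erase h).erase m).erase t, (Y k : ℝ)) *
          Real.sqrt ((Y z : ℝ) * Y h)) * ((N : ℝ) ^ (2 / ((E : ℝ) + 1) + ε) * K)) := by
  obtain ⟨C, hC, h0⟩ := four0 n E hn hE S ε hε
  refine ⟨C, hC, fun N Y hN hY L V K hK z j m t hzj hzm hzt hjm hjt hmt R hR T hT => ?_⟩
  refine (h0 N Y hN hY L V K hK z j m t hzj hzm hzt hjm hjt hmt T
    (fun a ha => ⟨(hT a ha).1, (hT a ha).2.1, (hT a ha).2.2.1⟩) ?_).trans (le_of_eq (by ring))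
  intro c P hP
  refine hR c P fun p hp => ?_
  obtain ⟨h1, a, ha, h2⟩ := hP p hp
  rw [h2]
  rw [h2] at h1
  exact ⟨(hT a ha).1 m, (hT a ha).1 t, h1, (hT a ha).2.2.2⟩

end Pool.Agent.Helper87.TY
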