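import Pool.Agent.Helper97.TX.Coll

/-!
TY-Y3 (MP_464c42_nt). The count of (b1): `a m = g x`, `a t = g y` with `|x + y| ≤ Lm`, `d ^ (2 L)` divides `a h`, no `p ^ L` (`p ∣ d`) divides `g`.
Proof: split `T` by `d ≤ V`, the values `a k`, `k ≠ h, t` (`n` indices, `rset_count`), and `g ∣ a m` (`tau_rpow`, both signs: at most `2 C N^δ`); in one class
`a h = - (rest) - g (x + y)`, so `d ^ (2 L) ∣ g ((x + y) - (x' + y'))`, hence `d ^ L ∣ (x + y) - (x' + y')`, which is less than `d ^ L`: so `a h` and `a t` are determined.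
`sr_small`: `p y = q (y + x)`; if `p = 0` then `y + x = 0`, else `y + x` divides `p`.
-/

set_option autoImplicit false

open Pool.Agent.Helper87.Camp Pool.Agent.Helper10 Pool.Agent.Helper91.CPX

namespace Pool.Agent.Helper87.TY

open Pool.Agent.Helper24.TU Pool.Agent.Helper24.TV Pool.Agent.Helper87.RP Pool.Agent.Helper97.TX

theorem sr_small (x y L : ℤ) (hL : 0 ≤ L) (hxy : IsCoprime x y)
    (h : ¬ NoSmallRatio y (y + x) L) : |x + y| ≤ L := by
  unfold NoSmallRatio at h
  push Not at h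
  obtain ⟨p, q, hp, hq, he, hne⟩ := h
  by_cases hq0 : q = 0
  · have hp0 : p ≠ 0 := fun h => hne h hq0
    rw [hq0, mul_zero] at he
    have h1 : y + x = 0 := by
      rcases mul_eq_zero.1 he.symm with h2 | h2
      · exact h2
      · exact absurd h2 hp0
    rw [add_comm, h1, abs_zero]
    exact hL
  · have h1 : (y + x) ∣ y * q := ⟨p, he⟩
    have h2 : IsCoprime (y + x) y := by
      have h3 := hxy.add_mul_right_left 1
      rw [one_mul, add_comm] at h3
      exact h3
    have h3 : (y + x) ∣ q := h2.dvd_of_dvd_mul_left h1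
    rw [add_comm]
    exact (Int.le_of_dvd (abs_pos.2 hq0) ((abs_dvd_abs _ _).2 h3)).trans hq

private lemma pow_dvd_w {p L : ℕ} (hp : p.Prime) {g w : ℤ} (hg : g ≠ 0)
    (h1 : ¬ (p : ℤ) ^ L ∣ g) (h2 : (p : ℤ) ^ (2 * L) ∣ g * w) : (p : ℤ) ^ L ∣ w := by
  have hpp : Prime (p : ℤ) := Nat.prime_iff_prime_int.1 hp
  obtain ⟨k, g', hg', hgk⟩ : ∃ (k : ℕ) (g' : ℤ), ¬ (p : ℤ) ∣ g' ∧ g = (p : ℤ) ^ k * g' := by
    obtain ⟨g', h3, h4⟩ :=
      (FiniteMultiplicity.of_prime_left hpp hg).exists_eq_pow_mul_and_not_dvd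
    exact ⟨_, g', h4, h3⟩
  have hk : k < L := by
    by_contra hcon
    push Not at hcon
    exact h1 ((pow_dvd_pow _ hcon).trans ⟨g', hgk⟩)
  have h3 : (p : ℤ) ^ (2 * L - k) ∣ g' * w := by
    have h4 : (p : ℤ) ^ k * (p : ℤ) ^ (2 * L - k) ∣ (p : ℤ) ^ k * (g' * w) := by
      rw [← pow_add, Nat.add_sub_cancel' (by omega), ← mul_assoc, ← hgk]
      exact h2
    exact (mul_dvd_mul_iff_left (pow_ne_zero _ hpp.ne_zero)).1 h4
  have h5 := Prime.pow_dvd_of_dvd_mul_left hpp (2 * L - k) hg' h3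
  exact (pow_dvd_pow _ (by omega)).trans h5

private lemma sq_dvd (d L : ℕ) (hd : Squarefree d) (x : ℤ)
    (h : ∀ p ∈ d.primeFactors, (p : ℤ) ^ L ∣ x) : ((d ^ L : ℕ) : ℤ) ∣ x := by
  have h1 : ((d ^ L : ℕ) : ℤ) = ∏ p ∈ d.primeFactors, (p : ℤ) ^ L := by
    rw [Finset.prod_pow, Nat.cast_pow]
    congr 1
    rw [← Nat.cast_prod, Nat.prod_primeFactors_of_squarefree hd]
  rw [h1]
  apply Finset.prod_dvd_of_coprime
  · intro p hp q hq hpq
    have h2 : Nat.Coprime p q := (Nat.coprime_primes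
      (Nat.prime_of_mem_primeFactors (Finset.mem_coe.1 hp))
      (Nat.prime_of_mem_primeFactors (Finset.mem_coe.1 hq))).2 hpq
    exact (Nat.isCoprime_iff_coprime.2 h2).pow
  · exact h

theorem smallR (n : ℕ) (hn : 2 ≤ n) (S : Finset ℕ) (ε : ℝ) (hε : 0 < ε) :
    ∃ C : ℝ, 1 ≤ C ∧ ∀ (N : ℕ) (Y : Fin (n + 2) → ℕ), 1 ≤ N → (∀ i, 1 ≤ Y i) →
      ∀ (L V : ℕ) (Lm : ℤ), ∀ h m t : Fin (n + 2), h ≠ m → h ≠ t → m ≠ t →
      ∀ T : Finset (Fin (n + 2) → ℤ),
      (∀ a ∈ T, (∀ i, a i ∈ Rset S (Y i) N) ∧ ∑ i, a i = 0 ∧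
        ∃ (d : ℕ) (g x y : ℤ), 1 ≤ d ∧ d ≤ V ∧ Squarefree d ∧ ((d ^ (2 * L) : ℕ) : ℤ) ∣ a h ∧
          (∀ p ∈ d.primeFactors, ¬ (p : ℤ) ^ L ∣ g) ∧ 2 * Lm < ((d ^ L : ℕ) : ℤ) ∧
          a m = g * x ∧ a t = g * y ∧ |x + y| ≤ Lm) →
      (T.card : ℝ) ≤ C * (V : ℝ) *
        ((∏ k ∈ (Finset.univ.erase h).erase t, (Y k : ℝ)) * (N : ℝ) ^ ε) := by
  classical
  obtain ⟨δ, hδ⟩ : ∃ δ : ℝ, δ = ε / ((n : ℝ) + 2) := ⟨_, rfl⟩
  have hδ0 : 0 < δ := by rw [hδ]; positivity
  obtain ⟨C1, hC1, h1⟩ := rset_count S δ hδ0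
  obtain ⟨C2, hC2, h2⟩ := tau_rpow δ hδ0
  have hC1n : (1 : ℝ) ≤ C1 ^ n := one_le_pow₀ hC1
  refine ⟨C1 ^ n * (2 * C2), by nlinarith, ?_⟩
  intro N Y hN hY L V Lm h m t hhm hht hmt T hT
  have hN1 : (1 : ℝ) ≤ N := by exact_mod_cast hN
  have hN0 : (0 : ℝ) < N := by linarith
  obtain ⟨G, hG⟩ : ∃ G : Finset (Fin (n + 2)), G = (Finset.univ.erase h).erase t := ⟨_, rfl⟩
  rw [← hG]
  have ht' : t ∈ (Finset.univ : Finset (Fin (n + 2))).erase h :=
    Finset.mem_erase.2 ⟨hht.symm, Finset.mem_univ _⟩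
  have hsplit : ∀ a : Fin (n + 2) → ℤ, ∑ k, a k = a h + (a t + ∑ k ∈ G, a k) := by
    intro a
    rw [hG, ← Finset.add_sum_erase Finset.univ a (Finset.mem_univ h),
      ← Finset.add_sum_erase _ a ht']
  have hGc : G.card = n := by
    rw [hG, Finset.card_erase_of_mem ht', Finset.card_erase_of_mem (Finset.mem_univ h),
      Finset.card_univ, Fintype.card_fin]
    omega
  have hmemG : ∀ k, k ≠ h → k ≠ t → k ∈ G := by
    intro k h1 h2
    rw [hG, Finset.mem_erase, Finset.mem_erase]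
    exact ⟨h2, h1, Finset.mem_univ _⟩
  have hmG : m ∈ G := hmemG m hhm.symm hmt
  choose! gd gg gx gy hd1 hdV hdsq hdiv hng hLm ham hat hxy using fun a ha => (hT a ha).2.2
  obtain ⟨K, hK⟩ : ∃ K : ℝ, K = 2 * (C2 * (N : ℝ) ^ δ) := ⟨_, rfl⟩
  have hK0 : 0 ≤ K := by rw [hK]; positivity
  let R : (Fin (n + 2) → ℤ) → ((k : G) → ℤ) := fun a k => a k.1
  let U : Finset (ℕ × ((k : G) → ℤ)) :=
    Finset.Icc 1 V ×ˢ Fintype.piFinset (fun k : G => Rset S (Y k.1) N)
  have hstep : (T.card : ℝ) ≤ K * (U.card : ℝ) := by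
    apply card_le_real (fun a => (gd a, R a))
    · intro a ha
      rw [Finset.mem_product, Finset.mem_Icc, Fintype.mem_piFinset]
      exact ⟨⟨hd1 a ha, hdV a ha⟩, fun k => (hT a ha).1 k.1⟩
    · rintro ⟨d, u⟩ _
      rcases (T.filter (fun a => (gd a, R a) = (d, u))).eq_empty_or_nonempty with h0 | ⟨a1, ha1⟩
      · rw [h0, Finset.card_empty, Nat.cast_zero]
        exact hK0
      · have hkey : ∀ a ∈ T.filter (fun a => (gd a, R a) = (d, u)),
            a ∈ T ∧ gd a = d ∧ R a = u := by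
          intro a ha
          rw [Finset.mem_filter, Prod.mk.injEq] at ha
          exact ⟨ha.1, ha.2.1, ha.2.2⟩
        obtain ⟨hT1, e1, e2⟩ := hkey a1 ha1
        have hcoord : ∀ a ∈ T.filter (fun a => (gd a, R a) = (d, u)), ∀ k ∈ G, a k = a1 k := by
          intro a ha k hk
          have h5 : R a = R a1 := by rw [(hkey a ha).2.2, e2]
          exact congrFun h5 ⟨k, hk⟩
        have ham1 : a1 m ≠ 0 := (mem_Rset.1 ((hT a1 hT1).1 m)).1
        have hamN : (a1 m).natAbs ≤ N := (mem_Rset.1 ((hT a1 hT1).1 m)).2.1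
        obtain ⟨D, hD⟩ : ∃ D : Finset ℤ, D = (a1 m).natAbs.divisors.image (fun c : ℕ => (c : ℤ)) ∪
          (a1 m).natAbs.divisors.image (fun c : ℕ => -(c : ℤ)) := ⟨_, rfl⟩
        have hDc : (D.card : ℝ) ≤ K := by
          have h3 : D.card ≤ tau (a1 m).natAbs + tau (a1 m).natAbs := by
            rw [hD]
            exact (Finset.card_union_le _ _).trans
              (Nat.add_le_add Finset.card_image_le Finset.card_image_le)
          have h4 := h2 (a1 m).natAbs (Int.natAbs_ne_zero.2 ham1)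
          have h5 : ((a1 m).natAbs : ℝ) ^ δ ≤ (N : ℝ) ^ δ :=
            Real.rpow_le_rpow (Nat.cast_nonneg _) (by exact_mod_cast hamN) hδ0.le
          have h6 : (D.card : ℝ) ≤ (tau (a1 m).natAbs : ℝ) + (tau (a1 m).natAbs : ℝ) := by
            exact_mod_cast h3
          have h7 : C2 * ((a1 m).natAbs : ℝ) ^ δ ≤ C2 * (N : ℝ) ^ δ :=
            mul_le_mul_of_nonneg_left h5 (by linarith)
          rw [hK]
          linarith
        refine le_trans ?_ hDc
        rw [Nat.cast_le]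
        refine Finset.card_le_card_of_injOn gg ?_ ?_
        · intro a ha
          rw [Finset.mem_coe] at ha
          obtain ⟨hTa, f1, f2⟩ := hkey a ha
          have h3 := ham a hTa
          rw [hcoord a ha m hmG] at h3
          have h4 : (gg a).natAbs ∣ (a1 m).natAbs := by
            rw [h3, Int.natAbs_mul]
            exact dvd_mul_right _ _
          rw [Finset.mem_coe, hD, Finset.mem_union, Finset.mem_image, Finset.mem_image]
          rcases Int.natAbs_eq (gg a) with h5 | h5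
          · exact Or.inl ⟨_, Nat.mem_divisors.2 ⟨h4, Int.natAbs_ne_zero.2 ham1⟩, h5.symm⟩
          · exact Or.inr ⟨_, Nat.mem_divisors.2 ⟨h4, Int.natAbs_ne_zero.2 ham1⟩, h5.symm⟩
        · intro a ha b hb hab
          rw [Finset.mem_coe] at ha hb
          obtain ⟨hTa, f1, -⟩ := hkey a ha
          obtain ⟨hTb, f1', -⟩ := hkey b hb
          have hga : gg a ≠ 0 := by
            intro h0
            have h3 := ham a hTa
            rw [h0, zero_mul] at h3
            exact (mem_Rset.1 ((hT a hTa).1 m)).1 h3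
          have hsa := (hT a hTa).2.1
          have hsb := (hT b hTb).2.1
          rw [hsplit] at hsa hsb
          have hGs : ∑ k ∈ G, a k = ∑ k ∈ G, b k :=
            Finset.sum_congr rfl fun k hk => by rw [hcoord a ha k hk, hcoord b hb k hk]
          have hmab : a m = b m := by rw [hcoord a ha m hmG, hcoord b hb m hmG]
          have ea1 := ham a hTa
          have ea2 := hat a hTa
          have eb1 := ham b hTb
          have eb2 := hat b hTb
          rw [← hab] at eb1 eb2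
          obtain ⟨w, hw⟩ : ∃ w : ℤ, w = (gx b + gy b) - (gx a + gy a) := ⟨_, rfl⟩
          have hdiff : a h - b h = gg a * w := by
            have h3 : a h - b h = b t - a t := by linarith
            rw [h3, hw]
            have h4 : gg a * (gx b + gy b - (gx a + gy a)) =
                (gg a * gx b + gg a * gy b) - (gg a * gx a + gg a * gy a) := by ring
            rw [h4, ← ea1, ← ea2, ← eb1, ← eb2, hmab]
            ring
          have hda : ((d ^ (2 * L) : ℕ) : ℤ) ∣ gg a * w := by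
            rw [← hdiff]
            have h3 := hdiv a hTa
            have h4 := hdiv b hTb
            rw [f1] at h3
            rw [f1'] at h4
            exact dvd_sub h3 h4
          have hdL : ((d ^ L : ℕ) : ℤ) ∣ w := by
            have hsq := hdsq a hTa
            rw [f1] at hsq
            apply sq_dvd d L hsq
            intro p hp
            have hng' := hng a hTa
            rw [f1] at hng'
            refine pow_dvd_w (Nat.prime_of_mem_primeFactors hp) hga (hng' p hp) ?_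
            refine dvd_trans ?_ hda
            rw [Nat.cast_pow]
            exact pow_dvd_pow_of_dvd (Int.natCast_dvd_natCast.2
              (Nat.dvd_of_mem_primeFactors hp)) _
          have hwa : |w| ≤ 2 * Lm := by
            have h3 := hxy a hTa
            have h4 := hxy b hTb
            rw [hw]
            have h5 := abs_sub (gx b + gy b) (gx a + gy a)
            linarith
          have hLm' := hLm a hTa
          rw [f1] at hLm'
          have hw0 : w = 0 := by
            by_contra hne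
            have h3 := Int.le_of_dvd (abs_pos.2 hne) ((dvd_abs _ _).2 hdL)
            linarith
          rw [hw0, mul_zero] at hdiff
          have i1 : a h = b h := by linarith
          have i2 : a t = b t := by
            rw [i1, hGs] at hsa
            linarith
          funext k
          by_cases hh1 : k = h
          · rw [hh1]; exact i1
          · by_cases hh2 : k = t
            · rw [hh2]; exact i2
            · rw [hcoord a ha k (hmemG k hh1 hh2), hcoord b hb k (hmemG k hh1 hh2)]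
  have hUc : (U.card : ℝ) ≤ (V : ℝ) * (C1 ^ n * ((∏ k ∈ G, (Y k : ℝ)) *
      (N : ℝ) ^ (δ * (n : ℝ)))) := by
    have e1 : U.card = V * ∏ k : G, (Rset S (Y k.1) N).card := by
      change (Finset.Icc 1 V ×ˢ Fintype.piFinset (fun k : G => Rset S (Y k.1) N)).card = _
      rw [Finset.card_product, Nat.card_Icc, Nat.add_sub_cancel, Fintype.card_piFinset]
    rw [e1]
    push_cast
    refine mul_le_mul_of_nonneg_left ?_ (Nat.cast_nonneg _)
    have e2 : ∏ k : G, ((Rset S (Y k.1) N).card : ℝ) ≤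
        ∏ k : G, (C1 * ((Y k.1 : ℝ) * (N : ℝ) ^ δ)) :=
      Finset.prod_le_prod (fun k _ => Nat.cast_nonneg _) fun k _ => h1 (Y k.1) N (hY k.1) hN
    refine e2.trans (le_of_eq ?_)
    rw [Finset.prod_coe_sort G (fun k => C1 * ((Y k : ℝ) * (N : ℝ) ^ δ)), Finset.prod_mul_distrib,
      Finset.prod_mul_distrib, Finset.prod_const, Finset.prod_const, hGc, ← Real.rpow_natCast
        ((N : ℝ) ^ δ), ← Real.rpow_mul hN0.le]
  have hexp : (N : ℝ) ^ δ * (N : ℝ) ^ (δ * (n : ℝ)) ≤ (N : ℝ) ^ ε := by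
    rw [← Real.rpow_add hN0]
    refine Real.rpow_le_rpow_of_exponent_le hN1 ?_
    have h3 : ((n : ℝ) + 2) * δ = ε := by
      rw [hδ]
      field_simp
    nlinarith
  have hP0 : (0 : ℝ) ≤ ∏ k ∈ G, (Y k : ℝ) := Finset.prod_nonneg fun k _ => Nat.cast_nonneg _
  have hC1p : (0 : ℝ) ≤ C1 ^ n := by linarith
  have hC20 : (0 : ℝ) ≤ 2 * C2 := by linarith
  calc (T.card : ℝ) ≤ K * (U.card : ℝ) := hstep
    _ ≤ K * ((V : ℝ) * (C1 ^ n * ((∏ k ∈ G, (Y k : ℝ)) *
      (N : ℝ) ^ (δ * (n : ℝ))))) := mul_le_mul_of_nonneg_left hUc hK0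
    _ = C1 ^ n * (2 * C2) * (V : ℝ) * ((∏ k ∈ G, (Y k : ℝ)) *
        ((N : ℝ) ^ δ * (N : ℝ) ^ (δ * (n : ℝ)))) := by
        rw [hK]
        ring
    _ ≤ _ := by gcongr

end Pool.Agent.Helper87.TY
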