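import Pool.Agent.Helper87.TY.TwoSum
import Pool.Agent.Helper87.TY.Four
import Pool.Agent.Helper87.TY.SmallR
import Pool.Agent.Helper97.TX.Ap

/-!
TY-Y4 (MP_464c42_nt). `n + 2` integers with sum zero: the bound without `Y t`, `Y c`. (helper97)

(A) `radM (a t)` small at level B: `pickT`, `coreNS`. (B1) Otherwise `caseH` gives `U`; two indices `≠ z` in `U`: `reg1H`.
(B2a) `U = {z, h}`, `radM (a h)` small at level A: `corePL`. (B2b) Otherwise `caseH` for `h` gives `i ≠ z, h` and `m` with `i = m` or `i = t`;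
`a m = g x`, `a t = g y`: `four` with `twoSum` if `y` has no small ratio to `y + x`, else `smallR`.
-/

set_option autoImplicit false

open Pool.Agent.Helper87.Camp Pool.Agent.Helper10 Pool.Agent.Helper91.CPX

namespace Pool.Agent.Helper87.TY

open Pool.Agent.Helper24.TU Pool.Agent.Helper24.TV Pool.Agent.Helper87.RP Pool.Agent.Helper97.TX

private lemma trivX (n N N1 : ℕ) (hN : N ≤ N1) (T : Finset (Fin (n + 2) → ℤ))
    (hT : ∀ a ∈ T, ∀ i, (a i).natAbs ≤ N) : (T.card : ℝ) ≤ (2 * (N1 : ℝ) + 1) ^ (n + 2) := by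
  classical
  have hsub : T ⊆ Fintype.piFinset fun _ : Fin (n + 2) => Finset.Icc (-(N1 : ℤ)) N1 := by
    intro a ha
    rw [Fintype.mem_piFinset]
    intro i
    have := hT a ha i
    rw [Finset.mem_Icc]
    omega
  have h1 := Finset.card_le_card hsub
  rw [Fintype.card_piFinset, Finset.prod_const, Finset.card_univ, Fintype.card_fin,
    Int.card_Icc] at h1
  have h2 : ((N1 : ℤ) + 1 - -(N1 : ℤ)).toNat = 2 * N1 + 1 := by omega
  rw [h2] at h1
  exact_mod_cast h1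

private lemma largeX (c : ℝ) (hc : 0 < c) (K : ℝ) :
    ∃ N1 : ℕ, 1 ≤ N1 ∧ ∀ N : ℕ, N1 ≤ N → K ≤ (N : ℝ) ^ c := by
  have h := (tendsto_rpow_atTop hc).comp tendsto_natCast_atTop_atTop
  obtain ⟨N1, hN1⟩ := Filter.eventually_atTop.1 (h.eventually_ge_atTop K)
  exact ⟨max N1 1, le_max_right _ _, fun N hN => hN1 N (le_trans (le_max_left _ _) hN)⟩

private lemma ceilX (x : ℝ) (hx : 1 ≤ x) :
    x ≤ (⌈x⌉₊ : ℝ) ∧ (⌈x⌉₊ : ℝ) ≤ 2 * x ∧ 1 ≤ ⌈x⌉₊ := by
  refine ⟨Nat.le_ceil _, ?_, Nat.one_le_ceil_iff.2 (by linarith)⟩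
  have := Nat.ceil_lt_add_one (show 0 ≤ x by linarith)
  linarith

theorem apY (n : ℕ) (hn : 2 ≤ n) (ε : ℝ) (hε : 0 < ε) :
    ∃ lam0 : ℝ, 0 < lam0 ∧ ∀ lam : ℝ, 0 < lam → lam ≤ lam0 → ∀ (S : Finset ℕ) (G : ℕ),
      ∃ C : ℝ, 1 ≤ C ∧ ∀ (N : ℕ) (Y : Fin (n + 2) → ℕ), 1 ≤ N →
      (∀ i, 1 ≤ Y i ∧ (Y i : ℝ) ≤ (N : ℝ) ^ lam) → ∀ (z t : Fin (n + 2)) (Q : ℝ), t ≠ z →
      (∀ c : Fin (n + 2), c ≠ z → c ≠ t →
        (∏ h ∈ (Finset.univ.erase t).erase c, (Y h : ℝ)) ≤ Q) →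
      ∀ T : Finset (Fin (n + 2) → ℤ), (∀ a ∈ T, ValH S G N Y a) →
      (T.card : ℝ) ≤ C * (Q * (N : ℝ) ^ (ε * lam)) := by
  classical
  obtain ⟨P, hP⟩ : ∃ P : ℕ, P = Fintype.card (Finset (Fin (n + 2))) := ⟨_, rfl⟩
  have hP1 : 1 ≤ P := by rw [hP]; exact Fintype.card_pos
  obtain ⟨κ, hκ0, hκε, hκ1⟩ : ∃ κ : ℝ, 0 < κ ∧ κ ≤ ε / 64 ∧ κ ≤ 1 / 64 :=
    ⟨min (ε / 64) (1 / 64), lt_min (by linarith) (by norm_num), min_le_left _ _, min_le_right _ _⟩
  obtain ⟨K, lamC, hK1, hlamC, hTS⟩ := twoSum (ε / 4) (by linarith)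
  obtain ⟨M1, hM1, hM1K⟩ : ∃ M1 : ℕ, 1 ≤ M1 ∧ (K : ℝ) + 6 ≤ κ * M1 := by
    refine ⟨⌈((K : ℝ) + 6) / κ⌉₊, Nat.one_le_ceil_iff.2 (by positivity), ?_⟩
    have h1 := Nat.le_ceil (((K : ℝ) + 6) / κ)
    rw [div_le_iff₀ hκ0] at h1
    linarith
  have hK0 : (0 : ℝ) ≤ K := Nat.cast_nonneg K
  have hM1κ : 5 ≤ κ * M1 := by linarith
  obtain ⟨LA, hLA⟩ : ∃ LA : ℕ, LA = P * M1 := ⟨_, rfl⟩
  have hLA1 : 1 ≤ LA := by rw [hLA]; exact Nat.mul_pos hP1 hM1
  obtain ⟨M3, κ2, lamA, hM3, hκ20, hκ2, hlamA, hPL⟩ := corePL n (by omega) ε hε κ (κ / 2) hκ0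
    (by linarith) (by linarith) (by linarith) le_rfl (2 * LA) (by omega)
  obtain ⟨M1B, hM1B⟩ : ∃ M1B : ℕ, M1B = M1 + M3 := ⟨_, rfl⟩
  have hM1B1 : 1 ≤ M1B := by omega
  have hM1Bκ : 5 ≤ 4 * κ * M1B := by
    rw [hM1B]
    push_cast
    have : 0 ≤ κ * (M3 : ℝ) := by positivity
    nlinarith
  obtain ⟨LB, hLB⟩ : ∃ LB : ℕ, LB = P * M1B := ⟨_, rfl⟩
  have hLB1 : 1 ≤ LB := by rw [hLB]; exact Nat.mul_pos hP1 hM1B1
  have hLBM3 : M3 ≤ 2 * LB := by
    have h1 : M1B ≤ LB := by rw [hLB]; exact Nat.le_mul_of_pos_left _ hP1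
    omega
  obtain ⟨lamB, hlamB, hNS⟩ := coreNS n (by omega) ε hε (4 * κ) κ2 (by linarith)
    (by linarith) (by linarith) hκ20 (by linarith) (2 * LB) (by omega)
  refine ⟨min (min lamA lamB) lamC, lt_min (lt_min hlamA hlamB) hlamC,
    fun lam hlam hle S G => ?_⟩
  obtain ⟨E, hE, hEl⟩ : ∃ E : ℕ, 1 ≤ E ∧ 3 / ((E : ℝ) + 1) ≤ ε / 4 * lam := by
    refine ⟨⌈3 / (ε / 4 * lam)⌉₊, Nat.one_le_ceil_iff.2 (by positivity), ?_⟩
    have h1 := Nat.le_ceil (3 / (ε / 4 * lam))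
    rw [div_le_iff₀ (by positivity)] at h1
    rw [div_le_iff₀ (by positivity)]
    have h2 := mul_pos (show (0 : ℝ) < ε / 4 by linarith) hlam
    rw [mul_add, mul_one, mul_comm (ε / 4 * lam)]
    linarith
  obtain ⟨CA, NA, hCA, hA⟩ := hPL lam hlam
    (hle.trans ((min_le_left _ _).trans (min_le_left _ _))) S
  obtain ⟨CB, NB, hCB, hB⟩ := hNS lam hlam
    (hle.trans ((min_le_left _ _).trans (min_le_right _ _))) S G
  obtain ⟨CT, NT, hCT, hT0⟩ := hTS lam hlam (hle.trans (min_le_right _ _)) S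
  obtain ⟨C1, hC1, hR1⟩ := reg1H n E (by omega) hE S (ε / 4 * lam) (by positivity)
  obtain ⟨C2, hC2, hT2⟩ := four n E hn hE S (ε / 4 * lam) (by positivity)
  obtain ⟨C3, hC3, hT3⟩ := smallR n hn S (ε / 4 * lam) (by positivity)
  obtain ⟨Nc, hNc1, hNc⟩ := largeX lam hlam ((2 ^ E) ^ 4)
  obtain ⟨Nd, hNd1, hNd⟩ := largeX (2 * κ * lam) (by positivity) 4
  obtain ⟨N1, hN1A, hN1B, hN1c, hN1d, hN1T⟩ : ∃ N1 : ℕ, NA ≤ N1 ∧ NB ≤ N1 ∧ Nc ≤ N1 ∧
      Nd ≤ N1 ∧ NT ≤ N1 :=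
    ⟨NA + NB + Nc + Nd + NT, by omega, by omega, by omega, by omega, by omega⟩
  obtain ⟨F, hF⟩ : ∃ F : ℝ, F = (Fintype.card (Fin (n + 2) × Fin (n + 2) × Fin (n + 2)) : ℝ) :=
    ⟨_, rfl⟩
  have hF0 : 0 ≤ F := by rw [hF]; exact Nat.cast_nonneg _
  obtain ⟨CC, hCC⟩ : ∃ CC : ℝ, CC = CB + C1 * 4 + C3 * 4 + CA + C2 * 4 * CT :=
    ⟨_, rfl⟩
  have hC2T : 0 ≤ C2 * 4 * CT := by
    have h1 : 0 ≤ C2 * 4 := by linarith
    exact mul_nonneg h1 (by linarith)
  have hCC0 : 0 ≤ CC := by rw [hCC]; linarith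
  have htriv0 : (1 : ℝ) ≤ (2 * (N1 : ℝ) + 1) ^ (n + 2) :=
    one_le_pow₀ (by have : (0 : ℝ) ≤ N1 := Nat.cast_nonneg N1; linarith)
  refine ⟨(2 * (N1 : ℝ) + 1) ^ (n + 2) + CC * F, by
    have := mul_nonneg hCC0 hF0
    linarith, ?_⟩
  intro N Y hN hY z t Q htz hQ2 T hT
  have hNR : (1 : ℝ) ≤ (N : ℝ) := by exact_mod_cast hN
  have hN0 : (0 : ℝ) < (N : ℝ) := by linarith
  have hY1 : ∀ i, 1 ≤ Y i := fun i => (hY i).1
  have hYR : ∀ i, (1 : ℝ) ≤ Y i := fun i => by exact_mod_cast hY1 i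
  have hpow1 : (1 : ℝ) ≤ (N : ℝ) ^ (ε * lam) := Real.one_le_rpow hNR (by positivity)
  -- indices
  have hex : ∀ x y w : Fin (n + 2), ∃ m, m ≠ x ∧ m ≠ y ∧ m ≠ w := by
    intro x y w
    by_contra hcon
    push Not at hcon
    have hsub : (Finset.univ : Finset (Fin (n + 2))) ⊆ {x, y, w} := by
      intro m _
      rw [Finset.mem_insert, Finset.mem_insert, Finset.mem_singleton]
      by_contra hc
      push Not at hc
      exact hc.2.2 (hcon m hc.1 hc.2.1)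
    have h1 := Finset.card_le_card hsub
    rw [Finset.card_univ, Fintype.card_fin] at h1
    have h2 : ({x, y, w} : Finset (Fin (n + 2))).card ≤ 3 := Finset.card_le_three
    omega
  have hQ1 : 1 ≤ Q := by
    obtain ⟨c, hcz, hct, -⟩ := hex z t t
    refine le_trans ?_ (hQ2 c hcz hct)
    have h3 : 1 ≤ ∏ h ∈ (Finset.univ.erase t).erase c, Y h := Finset.one_le_prod' fun h _ => hY1 h
    exact_mod_cast h3
  have hQ0 : 0 ≤ Q := by linarith
  have hQN : 0 ≤ Q * (N : ℝ) ^ (ε * lam) := by positivity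
  rcases lt_or_ge N N1 with hNN1 | hNN1
  · have h1 := trivX n N N1 hNN1.le T fun a ha i => (mem_Rset.1 ((hT a ha).mem i)).2.1
    have h3 : (1 : ℝ) ≤ Q * (N : ℝ) ^ (ε * lam) := one_le_mul_of_one_le_of_one_le hQ1 hpow1
    have h4 := mul_nonneg hCC0 hF0
    calc (T.card : ℝ) ≤ ((2 * (N1 : ℝ) + 1) ^ (n + 2) + CC * F) * 1 := by linarith
      _ ≤ _ := mul_le_mul_of_nonneg_left h3 (by linarith)
  -- the numbers
  obtain ⟨DA, hDA⟩ : ∃ DA : ℕ, DA = ⌈(N : ℝ) ^ (κ * lam)⌉₊ := ⟨_, rfl⟩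
  obtain ⟨WA, hWA⟩ : ∃ WA : ℕ, WA = ⌈(N : ℝ) ^ (κ / 2 * lam)⌉₊ := ⟨_, rfl⟩
  obtain ⟨DB, hDB⟩ : ∃ DB : ℕ, DB = ⌈(N : ℝ) ^ (4 * κ * lam)⌉₊ := ⟨_, rfl⟩
  obtain ⟨WB, hWB⟩ : ∃ WB : ℕ, WB = ⌈(N : ℝ) ^ (κ2 * lam)⌉₊ := ⟨_, rfl⟩
  obtain ⟨hDAl, hDAu, hDA1⟩ := ceilX _ (Real.one_le_rpow hNR (by positivity : 0 ≤ κ * lam))
  obtain ⟨hWAl, hWAu, hWA1⟩ := ceilX _ (Real.one_le_rpow hNR (by positivity : 0 ≤ κ / 2 * lam))
  obtain ⟨hDBl, hDBu, hDB1⟩ := ceilX _ (Real.one_le_rpow hNR (by positivity : 0 ≤ 4 * κ * lam))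
  obtain ⟨hWBl, hWBu, hWB1⟩ := ceilX _ (Real.one_le_rpow hNR (by positivity : 0 ≤ κ2 * lam))
  have hA' := hA N (by omega) hN Y hY
  obtain ⟨Lm, hLm1, hsize, hB'⟩ := hB N (by omega) hN
  obtain ⟨LC, hLC1, hLCK, hT0'⟩ := hT0 N (by omega) hN
  have hB'' := hB' Y hY
  rw [← hDA, ← hWA, ← hWB] at hA'
  rw [← hDB, ← hWB] at hB''
  rw [← hDA] at hDAl hDAu hDA1
  rw [← hWA] at hWAl hWAu hWA1
  rw [← hDB] at hDBl hDBu hDB1
  rw [← hWB] at hWBl hWBu hWB1
  have hDD : DA * DA ≤ DB := by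
    have h1 := hNd N (by omega)
    have h2 : ((DA : ℝ)) * DA ≤ DB := by
      calc (DA : ℝ) * DA ≤ (2 * (N : ℝ) ^ (κ * lam)) * (2 * (N : ℝ) ^ (κ * lam)) :=
            mul_le_mul hDAu hDAu (Nat.cast_nonneg _) (by positivity)
        _ = 4 * ((N : ℝ) ^ (κ * lam) * (N : ℝ) ^ (κ * lam)) := by ring
        _ ≤ (N : ℝ) ^ (2 * κ * lam) * ((N : ℝ) ^ (κ * lam) * (N : ℝ) ^ (κ * lam)) :=
            mul_le_mul_of_nonneg_right h1 (by positivity)
        _ = (N : ℝ) ^ (4 * κ * lam) := by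
            rw [← Real.rpow_add hN0, ← Real.rpow_add hN0]
            congr 1
            ring
        _ ≤ DB := hDBl
    exact_mod_cast h2
  -- large moduli
  have hbig : ∀ (c : ℝ) (D M : ℕ), 5 ≤ c * M → (N : ℝ) ^ (c * lam) ≤ (D : ℝ) →
      ∀ i, (2 ^ E * Y i) ^ 4 ≤ D ^ M := by
    intro c D M hcM hD i
    have h1 := hNc N (by omega)
    have h2 : ((2 ^ E * (Y i : ℝ)) ^ 4) ≤ (D : ℝ) ^ M := by
      calc (2 ^ E * (Y i : ℝ)) ^ 4 ≤ (2 ^ E * (N : ℝ) ^ lam) ^ 4 := by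
            apply pow_le_pow_left₀ (by positivity)
            exact mul_le_mul_of_nonneg_left (hY i).2 (by positivity)
        _ = (2 ^ E) ^ 4 * ((N : ℝ) ^ lam) ^ 4 := by rw [mul_pow]
        _ ≤ (N : ℝ) ^ lam * ((N : ℝ) ^ lam) ^ 4 := mul_le_mul_of_nonneg_right h1 (by positivity)
        _ = (N : ℝ) ^ (lam * 5) := by
            rw [Real.rpow_mul hN0.le]
            have : ((N : ℝ) ^ lam) ^ (5 : ℝ) = ((N : ℝ) ^ lam) ^ (5 : ℕ) := by
              rw [← Real.rpow_natCast]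
              norm_num
            rw [this]
            ring
        _ ≤ (N : ℝ) ^ (c * lam * (M : ℝ)) := by
            apply Real.rpow_le_rpow_of_exponent_le hNR
            nlinarith [mul_le_mul_of_nonneg_right hcM hlam.le]
        _ = ((N : ℝ) ^ (c * lam)) ^ M := by
            rw [Real.rpow_mul hN0.le (c * lam) (M : ℝ), Real.rpow_natCast]
        _ ≤ (D : ℝ) ^ M := pow_le_pow_left₀ (by positivity) hD _
    exact_mod_cast h2
  have hbigL : ∀ d : ℕ, DA ^ M1 ≤ d ^ LA → 2 * LC < ((d ^ LA : ℕ) : ℤ) := by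
    intro d hd
    have h1 := hNc N (by omega)
    have h16 : (16 : ℝ) ≤ (2 ^ E) ^ 4 := by
      have h2 : (2 : ℝ) ^ 1 ≤ 2 ^ E := pow_le_pow_right₀ (by norm_num) hE
      calc (16 : ℝ) = (2 ^ 1) ^ 4 := by norm_num
        _ ≤ (2 ^ E) ^ 4 := pow_le_pow_left₀ (by norm_num) h2 4
    have hLCR : (1 : ℝ) ≤ (LC : ℝ) := by exact_mod_cast hLC1
    have h2 : (2 : ℝ) * (LC : ℝ) < ((d ^ LA : ℕ) : ℝ) := by
      calc (2 : ℝ) * (LC : ℝ) < 16 * LC := by linarith
        _ ≤ (N : ℝ) ^ lam * (N : ℝ) ^ ((K : ℝ) * lam) :=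
            mul_le_mul (h16.trans h1) hLCK (by linarith) (by positivity)
        _ = (N : ℝ) ^ (lam + (K : ℝ) * lam) := (Real.rpow_add hN0 _ _).symm
        _ ≤ (N : ℝ) ^ (κ * lam * (M1 : ℝ)) := by
            apply Real.rpow_le_rpow_of_exponent_le hNR
            nlinarith [mul_le_mul_of_nonneg_right hM1K hlam.le]
        _ = ((N : ℝ) ^ (κ * lam)) ^ M1 := by
            rw [Real.rpow_mul hN0.le (κ * lam) (M1 : ℝ), Real.rpow_natCast]
        _ ≤ (DA : ℝ) ^ M1 := pow_le_pow_left₀ (by positivity) hDAl _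
        _ ≤ ((d ^ LA : ℕ) : ℝ) := by exact_mod_cast hd
    exact_mod_cast h2
  have hbigB := hbig (4 * κ) DB M1B hM1Bκ hDBl
  -- the numbers `V`
  have hVA : ((DA * WA : ℕ) : ℝ) ≤ 4 * (N : ℝ) ^ (2 * κ * lam) := by
    push_cast
    calc (DA : ℝ) * WA ≤ (2 * (N : ℝ) ^ (κ * lam)) * (2 * (N : ℝ) ^ (κ / 2 * lam)) :=
          mul_le_mul hDAu hWAu (Nat.cast_nonneg _) (by positivity)
      _ = 4 * ((N : ℝ) ^ (κ * lam) * (N : ℝ) ^ (κ / 2 * lam)) := by ring
      _ ≤ 4 * (N : ℝ) ^ (2 * κ * lam) := by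
          rw [← Real.rpow_add hN0]
          refine mul_le_mul_of_nonneg_left ?_ (by norm_num)
          apply Real.rpow_le_rpow_of_exponent_le hNR
          nlinarith [mul_pos hκ0 hlam]
  have hVB : ((DB * WB : ℕ) : ℝ) ≤ 4 * (N : ℝ) ^ (5 * κ * lam) := by
    push_cast
    calc (DB : ℝ) * WB ≤ (2 * (N : ℝ) ^ (4 * κ * lam)) * (2 * (N : ℝ) ^ (κ2 * lam)) :=
          mul_le_mul hDBu hWBu (Nat.cast_nonneg _) (by positivity)
      _ = 4 * ((N : ℝ) ^ (4 * κ * lam) * (N : ℝ) ^ (κ2 * lam)) := by ring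
      _ ≤ 4 * (N : ℝ) ^ (5 * κ * lam) := by
          rw [← Real.rpow_add hN0]
          refine mul_le_mul_of_nonneg_left ?_ (by norm_num)
          apply Real.rpow_le_rpow_of_exponent_le hNR
          nlinarith [mul_pos hκ0 hlam, mul_le_mul_of_nonneg_right hκ2 hlam.le]
  have hκlam : κ * lam ≤ ε / 64 * lam := mul_le_mul_of_nonneg_right hκε hlam.le
  -- the five classes
  obtain ⟨R1, hR1d⟩ : ∃ R1 : Fin (n + 2) → Fin (n + 2) → (Fin (n + 2) → ℤ) → Prop,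
      R1 = fun j l a => j ≠ z ∧ l ≠ z ∧ t ≠ j ∧
        t ≠ l ∧ j ≠ l ∧ ∃ d : ℕ, 1 ≤ d ∧ d ≤ DB * WB ∧ ((d ^ (2 * LB) : ℕ) : ℤ) ∣ a t ∧
          (∀ p ∈ d.primeFactors, ¬ (p : ℤ) ^ LB ∣ a j) ∧
          (∀ p ∈ d.primeFactors, ¬ (p : ℤ) ^ LB ∣ a l) ∧
          (2 ^ E * Y j) ^ 4 ≤ d ^ LB ∧ (2 ^ E * Y l) ^ 4 ≤ d ^ LB := ⟨_, rfl⟩
  obtain ⟨Pr, hPr⟩ : ∃ Pr : Fin 5 → Fin (n + 2) × Fin (n + 2) × Fin (n + 2) →
      (Fin (n + 2) → ℤ) → Prop, Pr = fun k x a =>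
      (k = 0 → x.1 ≠ z ∧ x.1 ≠ t ∧ radM S (2 * LB) WB (a t) ≤ DB ∧
        NoSmallRatio (a t) (a t + a x.1) Lm) ∧
      (k = 1 → R1 x.1 x.2.1 a) ∧
      (k = 2 → x.1 ≠ z ∧ x.1 ≠ t ∧ x.1 ≠ x.2.1 ∧ x.2.1 ≠ t ∧
        ∃ (d : ℕ) (g x' y' : ℤ), 1 ≤ d ∧ d ≤ DA * WA ∧ Squarefree d ∧
          ((d ^ (2 * LA) : ℕ) : ℤ) ∣ a x.1 ∧ (∀ p ∈ d.primeFactors, ¬ (p : ℤ) ^ LA ∣ g) ∧
          2 * LC < ((d ^ LA : ℕ) : ℤ) ∧ a x.2.1 = g * x' ∧ a t = g * y' ∧ |x' + y'| ≤ LC) ∧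
      (k = 3 → x.1 ≠ z ∧ x.1 ≠ t ∧ radM S (2 * LA) WA (a x.1) ≤ DA ∧
        DA * DA < radM S M3 WB (a t)) ∧
      (k = 4 → z ≠ x.1 ∧ z ≠ x.2.1 ∧ x.1 ≠ x.2.1 ∧ x.1 ≠ t ∧ x.2.1 ≠ t ∧
        (∃ d : ℕ, 1 ≤ d ∧ d ≤ DB * WB ∧ d ^ LB ≤ N ∧ ((d ^ LB : ℕ) : ℤ) ∣ a z + a x.1 ∧
          IsCoprime (a z) (d : ℤ) ∧ IsCoprime (a x.1) (d : ℤ) ∧
          (2 ^ E * Y z) ^ 4 ≤ d ^ LB ∧ (2 ^ E * Y x.1) ^ 4 ≤ d ^ LB) ∧
        NSR LC (a x.2.1) (a t)) := ⟨_, rfl⟩
  have hclass : ∀ a ∈ T, ∃ k x, Pr k x a := by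
    intro a ha
    have hv := hT a ha
    by_cases hnice : radM S (2 * LB) WB (a t) ≤ DB
    · -- class 0
      obtain ⟨b, b', g1, g2, g3, g4, g5⟩ := pickT (by omega : 1 ≤ n) a
        (fun i => (mem_Rset.1 (hv.mem i)).1) hv.sum (G : ℤ) Lm (N : ℤ) (Int.natCast_nonneg G)
        hLm1 hv.gcd hv.big hsize t
      by_cases hbz : b = z
      · have hb' : b' ≠ z := fun h => g3 (hbz.trans h.symm)
        refine ⟨0, (b', b', b'), ?_⟩
        rw [hPr]
        exact ⟨fun _ => ⟨hb', g2.symm, hnice, g5⟩, fun h => absurd h (by decide),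
          fun h => absurd h (by decide), fun h => absurd h (by decide),
          fun h => absurd h (by decide)⟩
      · refine ⟨0, (b, b, b), ?_⟩
        rw [hPr]
        exact ⟨fun _ => ⟨hbz, g1.symm, hnice, g4⟩, fun h => absurd h (by decide),
          fun h => absurd h (by decide), fun h => absurd h (by decide),
          fun h => absurd h (by decide)⟩
    · push Not at hnice
      obtain ⟨U, htU, hU2, d, hsq, hd1, hdV, hdt, hin, hout, hfew, hpw⟩ :=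
        caseH S M1B WB DB P LB hP hM1B1 hLB a t hWB1 hDB1 hv.few hnice
      have hbigd : ∀ i, (2 ^ E * Y i) ^ 4 ≤ d ^ LB := fun i => (hbigB i).trans hpw
      by_cases hjl : ∃ j l, j ∈ U ∧ l ∈ U ∧ j ≠ l ∧ j ≠ z ∧ l ≠ z
      · -- class 1
        obtain ⟨j, l, hj, hl, hjl, hjz, hlz⟩ := hjl
        refine ⟨1, (j, l, l), ?_⟩
        rw [hPr]
        refine ⟨fun h => absurd h (by decide), fun _ => ?_,
          fun h => absurd h (by decide), fun h => absurd h (by decide),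
          fun h => absurd h (by decide)⟩
        have htj : t ≠ j := fun h => htU (h ▸ hj)
        have htl : t ≠ l := fun h => htU (h ▸ hl)
        rw [hR1d]
        exact ⟨hjz, hlz, htj, htl, hjl, d, hd1, hdV, hdt,
          hin j hj, hin l hl, hbigd j, hbigd l⟩
      · obtain ⟨h, hhU, hhz, hUh⟩ := two_set U z hU2 hjl
        have hht : h ≠ t := fun h' => htU (h' ▸ hhU)
        obtain ⟨q1, q2, q3⟩ := pair_dvd d LB hLB1 hd1 hsq a hv.sum U z h hhz.symm hUh hout hfew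
        have hdN : d ^ LB ≤ N := by
          have h3 := hdt
          rw [Int.natCast_dvd] at h3
          have h4 := mem_Rset.1 (hv.mem t)
          exact (Nat.pow_le_pow_right hd1 (by omega)).trans
            ((Nat.le_of_dvd (Int.natAbs_pos.2 h4.1) h3).trans h4.2.1)
        by_cases hniceA : radM S (2 * LA) WA (a h) ≤ DA
        · -- class 3
          refine ⟨3, (h, h, h), ?_⟩
          rw [hPr]
          refine ⟨fun h => absurd h (by decide), fun h => absurd h (by decide),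
            fun h => absurd h (by decide), fun _ => ⟨hhz, hht, hniceA, ?_⟩,
            fun h => absurd h (by decide)⟩
          calc DA * DA ≤ DB := hDD
            _ < radM S (2 * LB) WB (a t) := hnice
            _ ≤ radM S M3 WB (a t) := radM_mono S hLBM3 le_rfl (a t)
        · push Not at hniceA
          obtain ⟨U', hhU', hU2', d', hsq', hd1', hdV', hdh, hin', -, -, hpw'⟩ :=
            caseH S M1 WA DA P LA hP hM1 hLA a h hWA1 hDA1 hv.few hniceA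
          -- the index in `U'`
          obtain ⟨i, hiU, hiz⟩ : ∃ i ∈ U', i ≠ z := by
            obtain ⟨i, hi, j, hj, hij⟩ := Finset.one_lt_card.1 (show 1 < U'.card by omega)
            by_cases h1 : i = z
            · exact ⟨j, hj, fun h2 => hij (h1.trans h2.symm)⟩
            · exact ⟨i, hi, h1⟩
          have hih : i ≠ h := fun h' => hhU' (h' ▸ hiU)
          obtain ⟨m, hmz, hmh, hmt, him⟩ : ∃ m, m ≠ z ∧ m ≠ h ∧ m ≠ t ∧ (i = m ∨ i = t) := by
            by_cases h1 : i = t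
            · obtain ⟨m, m1, m2, m3⟩ := hex z h t
              exact ⟨m, m1, m2, m3, Or.inr h1⟩
            · exact ⟨i, hiz, hih, h1, Or.inl rfl⟩
          have ham0 : a m ≠ 0 := (mem_Rset.1 (hv.mem m)).1
          obtain ⟨g, x, y, hgx, hgy, hxy⟩ : ∃ g x y : ℤ, a m = g * x ∧ a t = g * y ∧
              IsCoprime x y := by
            have hg : (0 : ℤ) < (Int.gcd (a m) (a t) : ℤ) := by
              have := Int.gcd_pos_of_ne_zero_left (a t) ham0
              exact_mod_cast this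
            obtain ⟨x, hx⟩ := Int.gcd_dvd_left (a m) (a t)
            obtain ⟨y, hy⟩ := Int.gcd_dvd_right (a m) (a t)
            refine ⟨(Int.gcd (a m) (a t) : ℤ), x, y, hx, hy, ?_⟩
            rw [Int.isCoprime_iff_gcd_eq_one]
            have h1 : Int.gcd ((Int.gcd (a m) (a t) : ℤ) * x) ((Int.gcd (a m) (a t) : ℤ) * y) =
                Int.gcd (a m) (a t) := by rw [← hx, ← hy]
            rw [Int.gcd_mul_left, Int.natAbs_natCast] at h1
            have h2 : 0 < Int.gcd (a m) (a t) := by exact_mod_cast hg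
            exact Nat.eq_of_mul_eq_mul_left h2 (by rw [h1, mul_one])
          by_cases hns : NoSmallRatio y (y + x) LC
          · -- class 4
            refine ⟨4, (h, m, m), ?_⟩
            rw [hPr]
            exact ⟨fun h => absurd h (by decide), fun h => absurd h (by decide),
              fun h => absurd h (by decide), fun h => absurd h (by decide),
              fun _ => ⟨hhz.symm, hmz.symm, hmh.symm, hht, hmt,
                ⟨d, hd1, hdV, hdN, q1, q2, q3, hbigd z, hbigd h⟩,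
                ⟨g, x, y, hgx, hgy, hxy, hns⟩⟩⟩
          · -- class 2
            have hgi : g ∣ a i := by
              rcases him with h1 | h1
              · rw [h1, hgx]; exact dvd_mul_right _ _
              · rw [h1, hgy]; exact dvd_mul_right _ _
            refine ⟨2, (h, m, m), ?_⟩
            rw [hPr]
            exact ⟨fun h => absurd h (by decide), fun h => absurd h (by decide),
              fun _ => ⟨hhz, hht, hmh.symm, hmt, d', g, x, y, hd1', hdV', hsq', hdh,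
                fun p hp h1 => hin' i hiU p hp (h1.trans hgi), hbigL d' hpw', hgx, hgy,
                sr_small x y LC (by omega) hxy hns⟩,
              fun h => absurd h (by decide), fun h => absurd h (by decide)⟩
  -- the bound in every class
  have hone : ∀ (k : Fin 5) (T' : Finset (Fin (n + 2) → ℤ)), T' ⊆ T →
      (∀ a ∈ T', ∃ x, Pr k x a) → (T'.card : ℝ) ≤
        (![CB, C1 * 4, C3 * 4, CA, C2 * 4 * CT] : Fin 5 → ℝ) k *
          (Q * (N : ℝ) ^ (ε * lam)) * F := by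
    intro k T' hT' hx
    rw [hF]
    refine cover T' (Pr k) _ hx ?_
    rintro ⟨x, y, w⟩ T'' hT'' hP''
    have hTT : T'' ⊆ T := hT''.trans hT'
    rw [hPr] at hP''
    fin_cases k
    · change (T''.card : ℝ) ≤ CB * (Q * (N : ℝ) ^ (ε * lam))
      rcases T''.eq_empty_or_nonempty with h0 | ⟨a1, ha1⟩
      · rw [h0, Finset.card_empty, Nat.cast_zero]
        exact mul_nonneg (by linarith) hQN
      obtain ⟨y1, y2, -, -⟩ := (hP'' a1 ha1).1 rfl
      have h1 := hB'' t x y2.symm T'' (by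
        intro a ha
        obtain ⟨-, -, y3, y4⟩ := (hP'' a ha).1 rfl
        exact ⟨(hT a (hTT ha)).mem, (hT a (hTT ha)).sum, y3, y4⟩)
      have h2 := hQ2 x y1 y2
      refine h1.trans ?_
      refine mul_le_mul_of_nonneg_left ?_ (by linarith)
      exact mul_le_mul_of_nonneg_right h2 (by positivity)
    · change (T''.card : ℝ) ≤ C1 * 4 * (Q * (N : ℝ) ^ (ε * lam))
      rcases T''.eq_empty_or_nonempty with h0 | ⟨a1, ha1⟩
      · rw [h0, Finset.card_empty, Nat.cast_zero]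
        exact mul_nonneg (by linarith) hQN
      have hR' : ∀ a ∈ T'', R1 x y a := fun a ha => (hP'' a ha).2.1 rfl
      rw [hR1d] at hR'
      obtain ⟨x2, x3, x4, x5, x6, -⟩ := hR' a1 ha1
      have h1 := hR1 N Y hN hY1 LB (DB * WB) t x y x4 x5 x6 T'' (by
        intro a ha
        obtain ⟨-, -, -, -, -, hd⟩ := hR' a ha
        exact ⟨(hT a (hTT ha)).mem, (hT a (hTT ha)).sum, hd⟩)
      have h2 : (∏ h ∈ ((Finset.univ.erase t).erase x).erase y, (Y h : ℝ)) *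
          Real.sqrt ((Y x : ℝ) * Y y) ≤ Q := by
        have e1 := hQ2 x x2 x4.symm
        have e2 := hQ2 y x3 x5.symm
        have m1 : y ∈ (Finset.univ.erase t).erase x :=
          Finset.mem_erase.2 ⟨x6.symm, Finset.mem_erase.2 ⟨x5.symm, Finset.mem_univ _⟩⟩
        have m2 : x ∈ (Finset.univ.erase t).erase y :=
          Finset.mem_erase.2 ⟨x6, Finset.mem_erase.2 ⟨x4.symm, Finset.mem_univ _⟩⟩
        rw [← Finset.prod_erase_mul _ _ m1] at e1
        rw [← Finset.prod_erase_mul _ _ m2, Finset.erase_right_comm] at e2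
        obtain ⟨PP, hPP'⟩ : ∃ PP : ℝ, PP = ∏ h ∈ ((Finset.univ.erase t).erase x).erase y,
          (Y h : ℝ) := ⟨_, rfl⟩
        have hPP0 : 0 ≤ PP := by rw [hPP']; exact Finset.prod_nonneg fun i _ => Nat.cast_nonneg _
        rw [← hPP'] at e1 e2 ⊢
        have hxR := hYR x
        have hyR := hYR y
        rcases le_total (Y x : ℝ) (Y y) with h | h
        · have h3 : Real.sqrt ((Y x : ℝ) * Y y) ≤ Y y := by
            rw [Real.sqrt_le_left (by linarith)]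
            nlinarith
          exact (mul_le_mul_of_nonneg_left h3 hPP0).trans e1
        · have h3 : Real.sqrt ((Y x : ℝ) * Y y) ≤ Y x := by
            rw [Real.sqrt_le_left (by linarith)]
            nlinarith
          exact (mul_le_mul_of_nonneg_left h3 hPP0).trans e2
      have h3 : (N : ℝ) ^ (5 * κ * lam) * (N : ℝ) ^ (2 / ((E : ℝ) + 1) + ε / 4 * lam) ≤
          (N : ℝ) ^ (ε * lam) := by
        rw [← Real.rpow_add hN0]
        apply Real.rpow_le_rpow_of_exponent_le hNR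
        have h4 : 2 / ((E : ℝ) + 1) ≤ 3 / ((E : ℝ) + 1) := by
          apply div_le_div_of_nonneg_right (by norm_num)
          positivity
        have h6 := mul_pos hε hlam
        linarith
      calc (T''.card : ℝ) ≤ _ := h1
        _ ≤ C1 * (4 * (N : ℝ) ^ (5 * κ * lam)) *
            (Q * (N : ℝ) ^ (2 / ((E : ℝ) + 1) + ε / 4 * lam)) := by gcongr
        _ = C1 * 4 * (Q * ((N : ℝ) ^ (5 * κ * lam) *
            (N : ℝ) ^ (2 / ((E : ℝ) + 1) + ε / 4 * lam))) := by ring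
        _ ≤ _ := by gcongr
    · change (T''.card : ℝ) ≤ C3 * 4 * (Q * (N : ℝ) ^ (ε * lam))
      rcases T''.eq_empty_or_nonempty with h0 | ⟨a1, ha1⟩
      · rw [h0, Finset.card_empty, Nat.cast_zero]
        exact mul_nonneg (by linarith) hQN
      obtain ⟨y1, y2, y3, y4, -⟩ := (hP'' a1 ha1).2.2.1 rfl
      have h1 := hT3 N Y hN hY1 LA (DA * WA) LC x y t y3 y2 y4 T'' (by
        intro a ha
        obtain ⟨-, -, -, -, g1⟩ := (hP'' a ha).2.2.1 rfl
        exact ⟨(hT a (hTT ha)).mem, (hT a (hTT ha)).sum, g1⟩)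
      have h2 := hQ2 x y1 y2
      rw [Finset.erase_right_comm] at h2
      have h3 : (N : ℝ) ^ (2 * κ * lam) * (N : ℝ) ^ (ε / 4 * lam) ≤ (N : ℝ) ^ (ε * lam) := by
        rw [← Real.rpow_add hN0]
        apply Real.rpow_le_rpow_of_exponent_le hNR
        have h6 := mul_pos hε hlam
        linarith
      calc (T''.card : ℝ) ≤ _ := h1
        _ ≤ C3 * (4 * (N : ℝ) ^ (2 * κ * lam)) * (Q * (N : ℝ) ^ (ε / 4 * lam)) := by gcongr
        _ = C3 * 4 * (Q * ((N : ℝ) ^ (2 * κ * lam) * (N : ℝ) ^ (ε / 4 * lam))) := by ring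
        _ ≤ _ := by gcongr
    · change (T''.card : ℝ) ≤ CA * (Q * (N : ℝ) ^ (ε * lam))
      rcases T''.eq_empty_or_nonempty with h0 | ⟨a1, ha1⟩
      · rw [h0, Finset.card_empty, Nat.cast_zero]
        exact mul_nonneg (by linarith) hQN
      obtain ⟨y1, y2, -, -⟩ := (hP'' a1 ha1).2.2.2.1 rfl
      have h1 := hA' x t y2 T'' (by
        intro a ha
        obtain ⟨-, -, y3, y4⟩ := (hP'' a ha).2.2.2.1 rfl
        exact ⟨(hT a (hTT ha)).mem, (hT a (hTT ha)).sum, y3, y4⟩)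
      have h2 := hQ2 x y1 y2
      rw [Finset.erase_right_comm] at h2
      refine h1.trans ?_
      refine mul_le_mul_of_nonneg_left ?_ (by linarith)
      exact mul_le_mul_of_nonneg_right h2 (by positivity)
    · change (T''.card : ℝ) ≤ C2 * 4 * CT * (Q * (N : ℝ) ^ (ε * lam))
      rcases T''.eq_empty_or_nonempty with h0 | ⟨a1, ha1⟩
      · rw [h0, Finset.card_empty, Nat.cast_zero]
        exact mul_nonneg hC2T hQN
      obtain ⟨y1, y2, y3, y4, y5, -, -⟩ := (hP'' a1 ha1).2.2.2.2 rfl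
      have h1 := hT2 N Y hN hY1 LB (DB * WB)
        (CT * (Real.sqrt (Y y : ℝ) * (N : ℝ) ^ (ε / 4 * lam))) (by positivity)
        z x y t y1 y2 htz.symm y3 y4 y5 (NSR LC)
        (hT0' (Y y) (Y t) (hY y).1 (hY y).2 (hY t).1 (hY t).2) T'' (by
        intro a ha
        obtain ⟨-, -, -, -, -, g1, g2⟩ := (hP'' a ha).2.2.2.2 rfl
        exact ⟨(hT a (hTT ha)).mem, (hT a (hTT ha)).sum, g1, g2⟩)
      -- the product
      have hprod : (∏ k ∈ (((Finset.univ.erase z).erase x).erase y).erase t, (Y k : ℝ)) *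
          (Real.sqrt ((Y z : ℝ) * Y x) * Real.sqrt (Y y : ℝ)) ≤ Q := by
        have e1 := hQ2 x y1.symm y4
        have e2 := hQ2 y y2.symm y5
        have m1 : y ∈ (Finset.univ.erase t).erase x :=
          Finset.mem_erase.2 ⟨y3.symm, Finset.mem_erase.2 ⟨y5, Finset.mem_univ _⟩⟩
        have m2 : x ∈ (Finset.univ.erase t).erase y :=
          Finset.mem_erase.2 ⟨y3, Finset.mem_erase.2 ⟨y4, Finset.mem_univ _⟩⟩
        have m3 : z ∈ ((Finset.univ.erase t).erase x).erase y :=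
          Finset.mem_erase.2 ⟨y2, Finset.mem_erase.2 ⟨y1, Finset.mem_erase.2
            ⟨htz.symm, Finset.mem_univ _⟩⟩⟩
        rw [← Finset.prod_erase_mul _ _ m1, ← Finset.prod_erase_mul _ _ m3] at e1
        rw [← Finset.prod_erase_mul _ _ m2, Finset.erase_right_comm,
          ← Finset.prod_erase_mul _ _ m3] at e2
        have hset : (((Finset.univ.erase z).erase x).erase y).erase t =
            (((Finset.univ.erase t).erase x).erase y).erase z := by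
          ext k
          simp only [Finset.mem_erase, Finset.mem_univ, and_true]
          tauto
        rw [hset]
        obtain ⟨PP, hPP'⟩ : ∃ PP : ℝ, PP = ∏ h ∈ (((Finset.univ.erase t).erase x).erase y).erase z,
          (Y h : ℝ) := ⟨_, rfl⟩
        have hPP0 : 0 ≤ PP := by rw [hPP']; exact Finset.prod_nonneg fun i _ => Nat.cast_nonneg _
        rw [← hPP'] at e1 e2 ⊢
        have hzR := hYR z
        have hxR := hYR x
        have hyR := hYR y
        have h0 : Real.sqrt (Y z : ℝ) ≤ Y z := by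
          rw [Real.sqrt_le_left (by linarith)]
          nlinarith
        have h5 : Real.sqrt ((Y z : ℝ) * Y x) * Real.sqrt (Y y : ℝ) =
            Real.sqrt (Y z : ℝ) * Real.sqrt ((Y x : ℝ) * Y y) := by
          rw [Real.sqrt_mul (by linarith), Real.sqrt_mul (by linarith), mul_assoc]
        rw [h5]
        rcases le_total (Y x : ℝ) (Y y) with h | h
        · have h3 : Real.sqrt ((Y x : ℝ) * Y y) ≤ Y y := by
            rw [Real.sqrt_le_left (by linarith)]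
            nlinarith
          calc PP * (Real.sqrt (Y z : ℝ) * Real.sqrt ((Y x : ℝ) * Y y))
              ≤ PP * ((Y z : ℝ) * Y y) := by gcongr
            _ = PP * (Y z : ℝ) * Y y := by ring
            _ ≤ Q := e1
        · have h3 : Real.sqrt ((Y x : ℝ) * Y y) ≤ Y x := by
            rw [Real.sqrt_le_left (by linarith)]
            nlinarith
          calc PP * (Real.sqrt (Y z : ℝ) * Real.sqrt ((Y x : ℝ) * Y y))
              ≤ PP * ((Y z : ℝ) * Y x) := by gcongr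
            _ = PP * (Y z : ℝ) * Y x := by ring
            _ ≤ Q := e2
      have h3 : (N : ℝ) ^ (5 * κ * lam) * ((N : ℝ) ^ (2 / ((E : ℝ) + 1) + ε / 4 * lam) *
          (N : ℝ) ^ (ε / 4 * lam)) ≤ (N : ℝ) ^ (ε * lam) := by
        rw [← Real.rpow_add hN0, ← Real.rpow_add hN0]
        apply Real.rpow_le_rpow_of_exponent_le hNR
        have h4 : 2 / ((E : ℝ) + 1) ≤ 3 / ((E : ℝ) + 1) := by
          apply div_le_div_of_nonneg_right (by norm_num)
          positivity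
        have h6 := mul_pos hε hlam
        linarith
      refine h1.trans ?_
      calc C2 * ((DB * WB : ℕ) : ℝ) *
            (((∏ k ∈ (((Finset.univ.erase z).erase x).erase y).erase t, (Y k : ℝ)) *
              Real.sqrt ((Y z : ℝ) * Y x)) * ((N : ℝ) ^ (2 / ((E : ℝ) + 1) + ε / 4 * lam) *
                (CT * (Real.sqrt (Y y : ℝ) * (N : ℝ) ^ (ε / 4 * lam)))))
          = C2 * ((DB * WB : ℕ) : ℝ) * CT *
            (((∏ k ∈ (((Finset.univ.erase z).erase x).erase y).erase t, (Y k : ℝ)) *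
              (Real.sqrt ((Y z : ℝ) * Y x) * Real.sqrt (Y y : ℝ))) *
                ((N : ℝ) ^ (2 / ((E : ℝ) + 1) + ε / 4 * lam) * (N : ℝ) ^ (ε / 4 * lam))) := by
            ring
        _ ≤ C2 * (4 * (N : ℝ) ^ (5 * κ * lam)) * CT *
            (Q * ((N : ℝ) ^ (2 / ((E : ℝ) + 1) + ε / 4 * lam) * (N : ℝ) ^ (ε / 4 * lam))) := by
            gcongr
        _ = C2 * 4 * CT * (Q * ((N : ℝ) ^ (5 * κ * lam) *
            ((N : ℝ) ^ (2 / ((E : ℝ) + 1) + ε / 4 * lam) * (N : ℝ) ^ (ε / 4 * lam)))) := by ring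
        _ ≤ C2 * 4 * CT * (Q * (N : ℝ) ^ (ε * lam)) := by gcongr
  obtain ⟨TT, hTT⟩ : ∃ TT : Fin 5 → Finset (Fin (n + 2) → ℤ),
    TT = fun k => T.filter (fun a => ∃ x, Pr k x a) := ⟨_, rfl⟩
  have hsub : T ⊆ (Finset.univ : Finset (Fin 5)).biUnion TT := by
    intro a ha
    obtain ⟨k, x, hx⟩ := hclass a ha
    rw [Finset.mem_biUnion]
    refine ⟨k, Finset.mem_univ _, ?_⟩
    rw [hTT, Finset.mem_filter]
    exact ⟨ha, x, hx⟩
  have h3 : (T.card : ℝ) ≤ ∑ k : Fin 5, ((TT k).card : ℝ) := by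
    have := (Finset.card_le_card hsub).trans Finset.card_biUnion_le
    exact_mod_cast this
  have h4 : ∀ k, ((TT k).card : ℝ) ≤
        (![CB, C1 * 4, C3 * 4, CA, C2 * 4 * CT] : Fin 5 → ℝ) k * (Q * (N : ℝ) ^ (ε * lam)) * F := by
    intro k
    apply hone k
    · rw [hTT]
      exact Finset.filter_subset _ _
    · intro a ha
      rw [hTT, Finset.mem_filter] at ha
      exact ha.2
  have h5 : (T.card : ℝ) ≤ CC * (Q * (N : ℝ) ^ (ε * lam)) * F := by
    refine h3.trans ((Finset.sum_le_sum fun k _ => h4 k).trans (le_of_eq ?_))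
    have hs : ∑ k : Fin 5, (![CB, C1 * 4, C3 * 4, CA, C2 * 4 * CT] : Fin 5 → ℝ) k = CC := by
      rw [Fin.sum_univ_five, hCC]
      rfl
    rw [← Finset.sum_mul, ← Finset.sum_mul, hs]
  have h6 : (0 : ℝ) ≤ (2 * (N1 : ℝ) + 1) ^ (n + 2) * (Q * (N : ℝ) ^ (ε * lam)) :=
    mul_nonneg (by linarith) hQN
  linarith

end Pool.Agent.Helper87.TY
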