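import Pool.Agent.Helper97.TX.Defs
import Pool.Agent.Helper97.TX.CaseH
import Pool.Agent.Helper97.TX.Coll
import Pool.Agent.Helper97.TX.Core
import Pool.Agent.Helper97.TX.Reg1H

/-!
TY (MP_464c42_nt). The exact exponent with separate bounds: definitions. (helper87)
-/

set_option autoImplicit false

open Pool.Agent.Helper87.Camp Pool.Agent.Helper10 Pool.Agent.Helper91.CPX

namespace Pool.Agent.Helper87.TY

/-- `u = g x`, `v = g y` with coprime `x`, `y`, and `y` has no small ratio to `y + x`. -/
def NSR (L u v : ℤ) : Prop :=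
  ∃ g x y : ℤ, u = g * x ∧ v = g * y ∧ IsCoprime x y ∧ NoSmallRatio y (y + x) L

end Pool.Agent.Helper87.TY
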