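import Pool.Agent.Helper87.TY.ApY
import Pool.Agent.Helper24.TU.Geo
import Pool.Agent.Helper24.TU.Trans

/-!
TY-Y5a (MP_464c42_nt). From `apY` to one dyadic range: copy of `fixX` (`Helper97/TX/Fix.lean`) with the other condition on `Q`.
(helper93)
-/

set_option autoImplicit false

open Pool.Agent.Helper87.Camp Pool.Agent.Helper10 Pool.Agent.Helper91.CPX

namespace Pool.Agent.Helper87.TY

open Pool.Agent.Helper24.TU Pool.Agent.Helper24.TV Pool.Agent.Helper87.RP Pool.Agent.Helper97.TX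

private lemma ty_size {n : ℕ} (L : Matrix (Fin (n + 2)) (Fin (n + 1)) ℤ) (x : Fin (n + 1) → ℤ)
    (i : Fin (n + 2)) : (rel L i * form L i x).natAbs ≤
      ((∑ i, (rel L i).natAbs * ∑ j, (L i j).natAbs) + 1) * ht x := by
  have h1 : (form L i x).natAbs ≤ (∑ j, (L i j).natAbs) * ht x := by
    unfold form
    rw [Finset.sum_mul]
    refine (Int.natAbs_sum_le _ _).trans (Finset.sum_le_sum fun j _ => ?_)
    rw [Int.natAbs_mul]
    exact Nat.mul_le_mul_left _ (le_ht x j)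
  calc (rel L i * form L i x).natAbs = (rel L i).natAbs * (form L i x).natAbs := Int.natAbs_mul _ _
    _ ≤ (rel L i).natAbs * ((∑ j, (L i j).natAbs) * ht x) := Nat.mul_le_mul_left _ h1
    _ = ((rel L i).natAbs * ∑ j, (L i j).natAbs) * ht x := by ring
    _ ≤ _ := by
        apply Nat.mul_le_mul_right
        have := Finset.single_le_sum (f := fun i => (rel L i).natAbs * ∑ j, (L i j).natAbs)
          (fun _ _ => Nat.zero_le _) (Finset.mem_univ i)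
        omega

private lemma ty_rad (S S' : Finset ℕ) (hS : S ⊆ S') (r f : ℤ) (hf : f ≠ 0)
    (hrp : ∀ p : ℕ, p.Prime → p ∉ S' → ¬ (p : ℤ) ∣ r) : radS S' (r * f) ≤ radS S f := by
  apply Nat.le_of_dvd (radS_pos S f)
  unfold radS
  apply Finset.prod_dvd_prod_of_subset
  intro p hp
  rw [Finset.mem_filter, Nat.mem_primeFactors] at hp
  obtain ⟨⟨hpp, hpd, -⟩, hpS⟩ := hp
  rw [Finset.mem_filter, Nat.mem_primeFactors]
  refine ⟨⟨hpp, ?_, Int.natAbs_ne_zero.2 hf⟩, fun h => hpS (hS h)⟩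
  have h1 : (p : ℤ) ∣ r * f := Int.natCast_dvd.2 hpd
  exact Int.natCast_dvd.1 (((Nat.prime_iff_prime_int.1 hpp).dvd_or_dvd h1).resolve_left
    (hrp p hpp hpS))

theorem fixY (n : ℕ) (hn : 2 ≤ n) (ε : ℝ) (hε : 0 < ε) :
    ∃ lam0 : ℝ, 0 < lam0 ∧ ∀ lam : ℝ, 0 < lam → lam ≤ lam0 →
      ∀ (S : Finset ℕ) (L : Matrix (Fin (n + 2)) (Fin (n + 1)) ℤ), (∀ i, minor L i ≠ 0) →
      ∃ Cmin : ℕ, 1 ≤ Cmin ∧ ∀ K0 : ℕ, Cmin ≤ K0 → ∃ C : ℝ, 1 ≤ C ∧
      ∀ (H : ℕ) (Y : Fin (n + 2) → ℕ), 1 ≤ H →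
      (∀ i, 1 ≤ Y i ∧ (Y i : ℝ) ≤ ((K0 * H : ℕ) : ℝ) ^ lam) → ∀ T : Finset (Fin (n + 1) → ℤ),
      (∀ x ∈ T, (∀ d : ℤ, (∀ j, d ∣ x j) → IsUnit d) ∧ ht x ≤ H ∧ H ≤ 2 * ht x ∧
        ∀ i, form L i x ≠ 0 ∧ radS S (form L i x) ≤ Y i) →
      ∀ (z t : Fin (n + 2)) (Q : ℝ), t ≠ z →
      (∀ c : Fin (n + 2), c ≠ z → c ≠ t →
        (∏ h ∈ (Finset.univ.erase t).erase c, (Y h : ℝ)) ≤ Q) →
      (T.card : ℝ) ≤ C * (Q * ((K0 * H : ℕ) : ℝ) ^ (ε * lam)) := by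
  classical
  obtain ⟨lam0, hlam0, hmain⟩ := apY n hn ε hε
  refine ⟨lam0, hlam0, fun lam hlam hle S L hL => ?_⟩
  have hrel : ∀ i, rel L i ≠ 0 := by
    intro i
    unfold rel
    exact mul_ne_zero (pow_ne_zero _ (by norm_num)) (hL i)
  obtain ⟨G1, hG1, hgeo⟩ := geo L hL
  obtain ⟨S', hS'⟩ : ∃ S' : Finset ℕ,
    S' = S ∪ Finset.univ.biUnion (fun i => (rel L i).natAbs.primeFactors) := ⟨_, rfl⟩
  obtain ⟨C0, hC0⟩ : ∃ C0 : ℕ, C0 = (∑ i, (rel L i).natAbs * ∑ j, (L i j).natAbs) + 1 := ⟨_, rfl⟩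
  have hC0pos : 1 ≤ C0 := by omega
  have hnd : ∀ p : ℕ, p.Prime → p ∉ S' → ∀ i, ¬ (p : ℤ) ∣ rel L i := by
    intro p hp hpS i h1
    rw [hS', Finset.mem_union, not_or] at hpS
    apply hpS.2
    rw [Finset.mem_biUnion]
    refine ⟨i, Finset.mem_univ _, ?_⟩
    rw [Nat.mem_primeFactors]
    exact ⟨hp, Int.natCast_dvd.mp h1, Int.natAbs_ne_zero.mpr (hrel i)⟩
  have hSS : S ⊆ S' := by
    rw [hS']
    exact Finset.subset_union_left
  refine ⟨C0, hC0pos, fun K0 hK0 => ?_⟩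
  obtain ⟨C, hC1, hC⟩ := hmain lam hlam hle S' (2 * K0 * G1)
  refine ⟨C, hC1, fun H Y hH hY T hT z t Q htz hQ => ?_⟩
  obtain ⟨f, hf⟩ : ∃ f : (Fin (n + 1) → ℤ) → (Fin (n + 2) → ℤ),
    f = fun x i => rel L i * form L i x := ⟨_, rfl⟩
  have hinj : Function.Injective f := by
    intro x y hxy
    apply form_injective L hL
    intro i
    have := congrFun hxy i
    rw [hf] at this
    exact mul_left_cancel₀ (hrel i) this
  rw [← Finset.card_image_of_injective _ hinj]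
  refine hC (K0 * H) Y (Nat.mul_pos (by omega) (by omega)) hY z t Q htz hQ (T.image f) ?_
  intro a ha
  rw [Finset.mem_image] at ha
  obtain ⟨x, hx, rfl⟩ := ha
  obtain ⟨hx1, hx2, hx3, hx4⟩ := hT x hx
  rw [hf]
  refine ⟨fun i => mem_Rset.2 ⟨mul_ne_zero (hrel i) (hx4 i).1, ?_, ?_⟩, rel_form_sum L x, ?_, ?_, ?_⟩
  · refine (ty_size L x i).trans ?_
    rw [← hC0]
    exact Nat.mul_le_mul hK0 hx2
  · exact (ty_rad S S' hSS _ _ (hx4 i).1 fun p hp hpS => hnd p hp hpS i).trans (hx4 i).2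
  · obtain ⟨⟨i, hi⟩, -⟩ := hgeo x hx1
    refine ⟨i, ?_⟩
    have h1 : ht x ≤ G1 * (form L i x).natAbs := by
      have h2 : (ht x : ℤ) ≤ ((G1 * (form L i x).natAbs : ℕ) : ℤ) := by
        push_cast
        rw [← Int.natCast_natAbs] at hi
        simpa using hi
      exact_mod_cast h2
    have h2 : 1 ≤ (rel L i).natAbs := Nat.one_le_iff_ne_zero.2 (Int.natAbs_ne_zero.2 (hrel i))
    have h3 : K0 * H ≤ 2 * K0 * G1 * (rel L i * form L i x).natAbs := by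
      calc K0 * H ≤ K0 * (2 * ht x) := Nat.mul_le_mul_left _ hx3
        _ = 2 * K0 * ht x := by ring
        _ ≤ 2 * K0 * (G1 * (form L i x).natAbs) := Nat.mul_le_mul_left _ h1
        _ = 2 * K0 * G1 * (1 * (form L i x).natAbs) := by ring
        _ ≤ 2 * K0 * G1 * ((rel L i).natAbs * (form L i x).natAbs) :=
            Nat.mul_le_mul_left _ (Nat.mul_le_mul_right _ h2)
        _ = _ := by rw [Int.natAbs_mul]
    rw [← Int.natCast_natAbs]
    exact_mod_cast h3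
  · intro g hg
    have h1 := (hgeo x hx1).2 g hg
    have h2 : G1 ≤ 2 * K0 * G1 := by
      calc G1 = 1 * G1 := (one_mul _).symm
        _ ≤ 2 * K0 * G1 := Nat.mul_le_mul_right _ (by omega)
    have h3 : (G1 : ℤ) ≤ ((2 * K0 * G1 : ℕ) : ℤ) := by exact_mod_cast h2
    exact h1.trans h3
  · intro p hp hpS
    have hp' : Prime (p : ℤ) := Nat.prime_iff_prime_int.mp hp
    obtain ⟨j, l, hjl, hj, hl⟩ := two_indices L x hx1 p hp (hnd p hp hpS)
    refine ⟨j, l, hjl, fun h => ?_, fun h => ?_⟩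
    · exact (hp'.dvd_or_dvd h).elim (hnd p hp hpS j) hj
    · exact (hp'.dvd_or_dvd h).elim (hnd p hp hpS l) hl

end Pool.Agent.Helper87.TY
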