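import Pool.Agent.Helper87.TY.Defs

/-!
TY-Y1 (MP_464c42_nt). Two numbers of small radical with a fixed sum.

`twoK`: for a fixed `k` the numbers `y` of radical at most `Y'` such that `k - y` is prime to `y`, has radical at most `Y`, and `y` has no small ratio to
`k`, are at most `√Y N^(ε lam)`: if `radM y` is large then a power `d ^ M` divides `y` and `k - y` is in one class modulo `d ^ M` (`linf`, `collisionR`);
if `radM y` is small and `radM (k - y)` at a deeper level is large: `classG`; if both are small: `rkR`.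
`twoSum`: divide by `g`, a divisor of the sum.
(helper87)
-/

set_option autoImplicit false

open Pool.Agent.Helper87.Camp Pool.Agent.Helper10 Pool.Agent.Helper91.CPX

namespace Pool.Agent.Helper87.TY

open Pool.Agent.Helper24.TU Pool.Agent.Helper24.TV Pool.Agent.Helper87.RP Pool.Agent.Helper97.TX

private lemma ap_large (c : ℝ) (hc : 0 < c) (K : ℝ) :
    ∃ N1 : ℕ, 1 ≤ N1 ∧ ∀ N : ℕ, N1 ≤ N → K ≤ (N : ℝ) ^ c := by
  have h := (tendsto_rpow_atTop hc).comp tendsto_natCast_atTop_atTop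
  obtain ⟨N1, hN1⟩ := Filter.eventually_atTop.1 (h.eventually_ge_atTop K)
  exact ⟨max N1 1, le_max_right _ _, fun N hN => hN1 N (le_trans (le_max_left _ _) hN)⟩

private lemma ceil_facts (x : ℝ) (hx : 1 ≤ x) :
    x ≤ (⌈x⌉₊ : ℝ) ∧ (⌈x⌉₊ : ℝ) ≤ 2 * x ∧ 1 ≤ ⌈x⌉₊ := by
  refine ⟨Nat.le_ceil _, ?_, Nat.one_le_ceil_iff.2 (by linarith)⟩
  have := Nat.ceil_lt_add_one (show 0 ≤ x by linarith)
  linarith

theorem twoK (ε : ℝ) (hε : 0 < ε) :
    ∃ (K : ℕ) (lam0 : ℝ), 1 ≤ K ∧ 0 < lam0 ∧ ∀ lam : ℝ, 0 < lam → lam ≤ lam0 → ∀ S : Finset ℕ,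
      ∃ (C : ℝ) (N1 : ℕ), 1 ≤ C ∧ ∀ N : ℕ, N1 ≤ N → 1 ≤ N →
      ∃ Lm : ℤ, 1 ≤ Lm ∧ (Lm : ℝ) ≤ (N : ℝ) ^ ((K : ℝ) * lam) ∧
      ∀ Y Y' : ℕ, 1 ≤ Y → (Y : ℝ) ≤ (N : ℝ) ^ lam → 1 ≤ Y' → (Y' : ℝ) ≤ (N : ℝ) ^ lam →
      ∀ (k : ℤ) (F : Finset ℤ), (∀ y ∈ F, y ∈ Rset S Y' N ∧ k - y ∈ Rset S Y N ∧
        IsCoprime (k - y) y ∧ NoSmallRatio y k Lm) →
      (F.card : ℝ) ≤ C * (Real.sqrt (Y : ℝ) * (N : ℝ) ^ (ε * lam)) := by
  classical
  obtain ⟨κ, hκ0, hκε, hκ1⟩ : ∃ κ : ℝ, 0 < κ ∧ κ ≤ ε / 16 ∧ κ ≤ 1 / 16 :=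
    ⟨min (ε / 16) (1 / 16), lt_min (by linarith) (by norm_num), min_le_left _ _, min_le_right _ _⟩
  obtain ⟨κW, hκW⟩ : ∃ κW : ℝ, κW = κ / 2 := ⟨_, rfl⟩
  have hW0 : 0 < κW := by rw [hκW]; positivity
  have hWκ : κW ≤ κ / 2 := hκW.le
  obtain ⟨MA, hMA1, hMAκ⟩ : ∃ M1 : ℕ, 1 ≤ M1 ∧ 5 ≤ κ * M1 := by
    refine ⟨⌈5 / κ⌉₊, Nat.one_le_ceil_iff.2 (by positivity), ?_⟩
    have h1 := Nat.le_ceil (5 / κ)
    rw [div_le_iff₀ hκ0] at h1
    linarith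
  obtain ⟨H1, hH1, hH1κ⟩ : ∃ H : ℕ, 1 ≤ H ∧ 2 ≤ κW * H := by
    refine ⟨⌈2 / κW⌉₊, Nat.one_le_ceil_iff.2 (by positivity), ?_⟩
    have h1 := Nat.le_ceil (2 / κW)
    rw [div_le_iff₀ hW0] at h1
    linarith
  obtain ⟨M2, hM2, hPLr⟩ := classG MA H1 hMA1 (κ / 2) (ε / 4) (by positivity) (by positivity)
  obtain ⟨M3, hM3d⟩ : ∃ M3 : ℕ, M3 = MA + M2 := ⟨_, rfl⟩
  have hM3 : 1 ≤ M3 := by omega
  have hM3R : (1 : ℝ) ≤ M3 := by exact_mod_cast hM3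
  obtain ⟨κ2, hκ20, hκ2κ, hκ2M⟩ : ∃ κ2 : ℝ, 0 < κ2 ∧ κ2 ≤ κW ∧ κ2 * M3 ≤ 1 / 2 := by
    refine ⟨min κW (1 / (2 * M3)), lt_min (by positivity) (by positivity), min_le_left _ _, ?_⟩
    calc min κW (1 / (2 * (M3 : ℝ))) * M3 ≤ 1 / (2 * (M3 : ℝ)) * M3 :=
          mul_le_mul_of_nonneg_right (min_le_right _ _) (by linarith)
      _ = 1 / 2 := by field_simp
  obtain ⟨H3, hH3, hH3κ⟩ : ∃ H : ℕ, 1 ≤ H ∧ 2 ≤ κ2 * H := by
    refine ⟨⌈2 / κ2⌉₊, Nat.one_le_ceil_iff.2 (by positivity), ?_⟩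
    have h1 := Nat.le_ceil (2 / κ2)
    rw [div_le_iff₀ hκ20] at h1
    linarith
  obtain ⟨m0, hm0, hreg2⟩ := rkR M3 H3 hM3 hH3 (ε / 4) (by positivity)
  have hm0R : (1 : ℝ) ≤ m0 := by exact_mod_cast hm0
  have hMAR : (1 : ℝ) ≤ MA := by exact_mod_cast hMA1
  refine ⟨2 * m0, 1 / (2 * (m0 + MA)), by omega, by positivity, ?_⟩
  intro lam hlam hlam0 S
  have hlam1 : lam * (m0 + MA) ≤ 1 / 2 := by
    rw [le_div_iff₀ (by positivity)] at hlam0
    linarith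
  have hlamqMA := mul_add lam (m0 : ℝ) (MA : ℝ)
  have hlamq0 : 0 ≤ lam * (m0 : ℝ) := by positivity
  have hlamMA0 : 0 ≤ lam * (MA : ℝ) := by positivity
  have hlamq : lam * m0 ≤ 1 / 2 := by linarith
  have hlamMA : lam * MA ≤ 1 / 2 := by linarith
  obtain ⟨m, hmdef⟩ : ∃ m : ℕ, m = ⌈1 / lam⌉₊ := ⟨_, rfl⟩
  have hmlam : 1 ≤ lam * m := by
    have h1 := Nat.le_ceil (1 / lam)
    rw [← hmdef, div_le_iff₀ hlam] at h1
    linarith
  have hmle : ∀ s : ℕ, lam * s ≤ 1 / 2 → s ≤ m := by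
    intro s hs
    have h3 : lam * s ≤ lam * m := by linarith
    have h1 : (s : ℝ) ≤ m := le_of_mul_le_mul_left h3 hlam
    exact_mod_cast h1
  have hmm0 : m0 ≤ m := hmle m0 hlamq
  have hmMA : MA ≤ H1 * m := (hmle MA hlamMA).trans (Nat.le_mul_of_pos_left _ hH1)
  obtain ⟨E, hE, hEl⟩ : ∃ E : ℕ, 1 ≤ E ∧ 2 / ((E : ℝ) + 1) ≤ ε / 4 * lam := by
    refine ⟨⌈2 / (ε / 4 * lam)⌉₊, Nat.one_le_ceil_iff.2 (by positivity), ?_⟩
    have h1 := Nat.le_ceil (2 / (ε / 4 * lam))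
    rw [div_le_iff₀ (by positivity)] at h1
    rw [div_le_iff₀ (by positivity)]
    have h2 := mul_pos (show (0 : ℝ) < ε / 4 by linarith) hlam
    rw [mul_add, mul_one, mul_comm (ε / 4 * lam)]
    linarith
  obtain ⟨C1, hC1, hc1⟩ := collisionR S E hE (ε / 8 * lam) (by positivity)
  obtain ⟨C2, hC2, hc2⟩ := hPLr m hmMA S (ε / 4 * lam) (by positivity)
  obtain ⟨C3, hC3, hc3⟩ := hreg2 m hmm0 S (ε / 4 * lam) (by positivity)
  obtain ⟨Na, hNa1, hNa⟩ := ap_large lam hlam (3 ^ m0 + 2 ^ (4 * E) + 3)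
  obtain ⟨Nc, hNc1, hNc⟩ := ap_large (lam / 2) (by positivity) (2 ^ M3 + 4)
  obtain ⟨N1, hN1a, hN1c⟩ : ∃ N1 : ℕ, Na ≤ N1 ∧ Nc ≤ N1 :=
    ⟨max Na Nc, le_max_left _ _, le_max_right _ _⟩
  have h3ε : (1 : ℝ) ≤ 3 ^ (ε / 4) := Real.one_le_rpow (by norm_num) (by positivity)
  obtain ⟨K1, hK1⟩ : ∃ K1 : ℝ, K1 = 4 * C1 := ⟨_, rfl⟩
  obtain ⟨K2, hK2⟩ : ∃ K2 : ℝ, K2 = C2 * (2 ^ 4 * 3 ^ (ε / 4)) := ⟨_, rfl⟩
  obtain ⟨K3, hK3⟩ : ∃ K3 : ℝ, K3 = C3 * (2 ^ 8 * 3 ^ (ε / 4)) := ⟨_, rfl⟩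
  have hK10 : 0 ≤ K1 := by rw [hK1]; positivity
  have hK20 : 0 ≤ K2 := by rw [hK2]; positivity
  have hK30 : 0 ≤ K3 := by rw [hK3]; positivity
  refine ⟨1 + K1 + K2 + K3, N1, by linarith, ?_⟩
  intro N hNN hN
  have hNR : (1 : ℝ) ≤ (N : ℝ) := by exact_mod_cast hN
  have hN0 : (0 : ℝ) < (N : ℝ) := by linarith
  have hNa' := hNa N (by omega)
  have hNc' := hNc N (by omega)
  obtain ⟨y0, hy0⟩ : ∃ y0 : ℝ, y0 = (N : ℝ) ^ lam := ⟨_, rfl⟩
  have hy01 : 1 ≤ y0 := by rw [hy0]; exact Real.one_le_rpow hNR hlam.le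
  rw [← hy0] at hNa'
  have hp3 : (0 : ℝ) < 3 ^ m0 := by positivity
  have hp2 : (0 : ℝ) < 2 ^ (4 * E) := by positivity
  obtain ⟨X, hX⟩ : ∃ X : ℕ, X = ⌈y0⌉₊ + 1 := ⟨_, rfl⟩
  have hXl : y0 ≤ (X : ℝ) := by
    have := Nat.le_ceil y0
    rw [hX]; push_cast; linarith
  have hXu : (X : ℝ) ≤ 3 * y0 := by
    have := Nat.ceil_lt_add_one (show 0 ≤ y0 by linarith)
    rw [hX]; push_cast; linarith
  have hX2 : 2 ≤ X := by
    have h1 : 1 ≤ ⌈y0⌉₊ := Nat.one_le_ceil_iff.2 (by linarith)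
    omega
  obtain ⟨w1, hw1⟩ : ∃ w1 : ℝ, w1 = (N : ℝ) ^ (κW * lam) := ⟨_, rfl⟩
  have hw11 : 1 ≤ w1 := by rw [hw1]; exact Real.one_le_rpow hNR (by positivity)
  obtain ⟨W1, hW1⟩ : ∃ W : ℕ, W = ⌈w1⌉₊ := ⟨_, rfl⟩
  obtain ⟨hW1l, hW1u, hW11⟩ := ceil_facts w1 hw11
  rw [← hW1] at hW1l hW1u hW11
  obtain ⟨w2, hw2⟩ : ∃ w2 : ℝ, w2 = (N : ℝ) ^ (κ2 * lam) := ⟨_, rfl⟩
  have hw21 : 1 ≤ w2 := by rw [hw2]; exact Real.one_le_rpow hNR (by positivity)
  obtain ⟨W2, hW2⟩ : ∃ W : ℕ, W = ⌈w2⌉₊ := ⟨_, rfl⟩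
  obtain ⟨hW2l, hW2u, hW21⟩ := ceil_facts w2 hw21
  rw [← hW2] at hW2l hW2u hW21
  obtain ⟨d0, hd0⟩ : ∃ d0 : ℝ, d0 = (N : ℝ) ^ (κ * lam) := ⟨_, rfl⟩
  have hd01 : 1 ≤ d0 := by rw [hd0]; exact Real.one_le_rpow hNR (by positivity)
  obtain ⟨D, hD⟩ : ∃ D : ℕ, D = ⌈d0⌉₊ := ⟨_, rfl⟩
  obtain ⟨hDl, hDu, hD1⟩ := ceil_facts d0 hd01
  rw [← hD] at hDl hDu hD1
  have hW12 : W2 ≤ W1 := by
    rw [hW1, hW2]
    apply Nat.ceil_mono
    rw [hw1, hw2]
    apply Real.rpow_le_rpow_of_exponent_le hNR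
    exact mul_le_mul_of_nonneg_right hκ2κ hlam.le
  have hκW1 : κW ≤ 1 := by linarith
  have hW1X : W1 ≤ X := by
    have h1 : w1 ≤ y0 := by
      rw [hw1, hy0]
      apply Real.rpow_le_rpow_of_exponent_le hNR
      linarith [mul_le_mul_of_nonneg_right hκW1 hlam.le]
    have h2 : ⌈w1⌉₊ ≤ ⌈y0⌉₊ := Nat.ceil_mono h1
    omega
  have hW2X : W2 ≤ X := hW12.trans hW1X
  have h81 : (3 : ℝ) ≤ y0 := by linarith
  have hXyy : (X : ℝ) ≤ (N : ℝ) ^ (lam + lam) := by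
    calc (X : ℝ) ≤ 3 * y0 := hXu
      _ ≤ y0 * y0 := mul_le_mul_of_nonneg_right h81 (by linarith)
      _ = (N : ℝ) ^ (lam + lam) := by rw [hy0, Real.rpow_add hN0]
  have hXW1 : X ≤ W1 ^ H1 := by
    have h1 : (X : ℝ) ≤ (W1 : ℝ) ^ H1 := by
      calc (X : ℝ) ≤ (N : ℝ) ^ (lam + lam) := hXyy
        _ ≤ (N : ℝ) ^ (κW * lam * (H1 : ℝ)) := by
            apply Real.rpow_le_rpow_of_exponent_le hNR
            linarith [mul_le_mul_of_nonneg_right hH1κ hlam.le]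
        _ = w1 ^ H1 := by rw [hw1, Real.rpow_mul hN0.le, Real.rpow_natCast]
        _ ≤ (W1 : ℝ) ^ H1 := pow_le_pow_left₀ (by linarith) hW1l _
    exact_mod_cast h1
  have hNW1 : N ≤ W1 ^ (H1 * m) := by
    have h1 : (N : ℝ) ≤ (W1 : ℝ) ^ (H1 * m) := by
      calc (N : ℝ) = (N : ℝ) ^ (1 : ℝ) := (Real.rpow_one _).symm
        _ ≤ (N : ℝ) ^ (κW * lam * ((H1 * m : ℕ) : ℝ)) := by
          apply Real.rpow_le_rpow_of_exponent_le hNR
          push_cast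
          have h2 : 2 * 1 ≤ (κW * H1) * (lam * m) :=
            mul_le_mul hH1κ hmlam (by norm_num) (by positivity)
          linarith [h2]
        _ = w1 ^ (H1 * m) := by rw [hw1, Real.rpow_mul hN0.le, Real.rpow_natCast]
        _ ≤ (W1 : ℝ) ^ (H1 * m) := pow_le_pow_left₀ (by linarith) hW1l _
    exact_mod_cast h1
  have hXW2 : X ≤ W2 ^ H3 := by
    have h1 : (X : ℝ) ≤ (W2 : ℝ) ^ H3 := by
      calc (X : ℝ) ≤ (N : ℝ) ^ (lam + lam) := hXyy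
        _ ≤ (N : ℝ) ^ (κ2 * lam * (H3 : ℝ)) := by
            apply Real.rpow_le_rpow_of_exponent_le hNR
            linarith [mul_le_mul_of_nonneg_right hH3κ hlam.le]
        _ = w2 ^ H3 := by rw [hw2, Real.rpow_mul hN0.le, Real.rpow_natCast]
        _ ≤ (W2 : ℝ) ^ H3 := pow_le_pow_left₀ (by linarith) hW2l _
    exact_mod_cast h1
  have hNW2 : N ≤ W2 ^ (H3 * m) := by
    have h1 : (N : ℝ) ≤ (W2 : ℝ) ^ (H3 * m) := by
      calc (N : ℝ) = (N : ℝ) ^ (1 : ℝ) := (Real.rpow_one _).symm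
        _ ≤ (N : ℝ) ^ (κ2 * lam * ((H3 * m : ℕ) : ℝ)) := by
          apply Real.rpow_le_rpow_of_exponent_le hNR
          push_cast
          have h2 : 2 * 1 ≤ (κ2 * H3) * (lam * m) :=
            mul_le_mul hH3κ hmlam (by norm_num) (by positivity)
          linarith [h2]
        _ = w2 ^ (H3 * m) := by rw [hw2, Real.rpow_mul hN0.le, Real.rpow_natCast]
        _ ≤ (W2 : ℝ) ^ (H3 * m) := pow_le_pow_left₀ (by linarith) hW2l _
    exact_mod_cast h1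
  have hhalf : (N : ℝ) ^ (lam / 2) * (N : ℝ) ^ (lam / 2) = y0 := by
    rw [hy0, ← Real.rpow_add hN0]
    congr 1
    ring
  have hhalf1 : (1 : ℝ) ≤ (N : ℝ) ^ (lam / 2) := Real.one_le_rpow hNR (by positivity)
  have hW2M : W2 ^ M3 ≤ X := by
    have h1 : ((W2 : ℝ)) ^ M3 ≤ (X : ℝ) := by
      have e1 : w2 ^ M3 ≤ (N : ℝ) ^ (lam / 2) := by
        rw [hw2, ← Real.rpow_natCast, ← Real.rpow_mul hN0.le]
        apply Real.rpow_le_rpow_of_exponent_le hNR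
        linarith [mul_le_mul_of_nonneg_right hκ2M hlam.le]
      calc (W2 : ℝ) ^ M3 ≤ (2 * w2) ^ M3 := pow_le_pow_left₀ (Nat.cast_nonneg _) hW2u _
        _ = 2 ^ M3 * w2 ^ M3 := by rw [mul_pow]
        _ ≤ (N : ℝ) ^ (lam / 2) * (N : ℝ) ^ (lam / 2) :=
            mul_le_mul (by linarith) e1 (by positivity) (by positivity)
        _ = y0 := hhalf
        _ ≤ X := hXl
    exact_mod_cast h1
  have hVX : D * W2 ≤ X := by
    have h1 : ((D : ℝ) * W2) ≤ (X : ℝ) := by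
      have e1 : d0 * w2 ≤ (N : ℝ) ^ (lam / 2) := by
        rw [hd0, hw2, ← Real.rpow_add hN0]
        apply Real.rpow_le_rpow_of_exponent_le hNR
        linarith [mul_le_mul_of_nonneg_right hκ1 hlam.le, mul_le_mul_of_nonneg_right hκ2κ hlam.le,
          mul_le_mul_of_nonneg_right hWκ hlam.le]
      have e2 : (4 : ℝ) ≤ (N : ℝ) ^ (lam / 2) := by
        have : (0 : ℝ) ≤ 2 ^ M3 := by positivity
        linarith
      calc (D : ℝ) * W2 ≤ (2 * d0) * (2 * w2) := by gcongr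
        _ = 4 * (d0 * w2) := by ring
        _ ≤ (N : ℝ) ^ (lam / 2) * (N : ℝ) ^ (lam / 2) :=
            mul_le_mul e2 e1 (by positivity) (by positivity)
        _ = y0 := hhalf
        _ ≤ X := hXl
    exact_mod_cast h1
  have hXκD : (X : ℝ) ^ (κ / 2) ≤ (D : ℝ) := by
    calc (X : ℝ) ^ (κ / 2) ≤ ((N : ℝ) ^ (lam + lam)) ^ (κ / 2) :=
          Real.rpow_le_rpow (Nat.cast_nonneg _) hXyy (by positivity)
      _ = d0 := by
          rw [hd0, ← Real.rpow_mul hN0.le]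
          congr 1
          ring
      _ ≤ D := hDl
  obtain ⟨Lm, hLm⟩ : ∃ Lm : ℤ, Lm = (X : ℤ) ^ m0 := ⟨_, rfl⟩
  have hLm1 : 1 ≤ Lm := by
    rw [hLm]
    exact one_le_pow₀ (by exact_mod_cast (by omega : 1 ≤ X))
  have hLmN : (Lm : ℝ) ≤ (N : ℝ) ^ (((2 * m0 : ℕ) : ℝ) * lam) := by
    rw [hLm]
    push_cast
    calc (X : ℝ) ^ m0 ≤ ((N : ℝ) ^ (lam + lam)) ^ m0 := pow_le_pow_left₀ (Nat.cast_nonneg _) hXyy _
      _ = (N : ℝ) ^ (2 * (m0 : ℝ) * lam) := by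
          rw [← Real.rpow_natCast, ← Real.rpow_mul hN0.le]
          congr 1
          ring
  refine ⟨Lm, hLm1, hLmN, ?_⟩
  intro Y Y' hY1 hYN hY1' hYN' k F hF
  have hYX : Y ≤ X := by
    have h1 : (Y : ℝ) ≤ (X : ℝ) := by
      rw [← hy0] at hYN
      linarith
    exact_mod_cast h1
  have hYX' : Y' ≤ X := by
    have h1 : (Y' : ℝ) ≤ (X : ℝ) := by
      rw [← hy0] at hYN'
      linarith
    exact_mod_cast h1
  have hmX : ∀ (y : ℤ) (Z : ℕ), Z ≤ X → y ∈ Rset S Z N → y ∈ Rset S X N := by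
    intro y Z hZ hy
    have h4 := mem_Rset.1 hy
    exact mem_Rset.2 ⟨h4.1, h4.2.1, h4.2.2.trans hZ⟩
  have hsY : 1 ≤ Real.sqrt (Y : ℝ) := by
    rw [Real.one_le_sqrt]
    exact_mod_cast hY1
  have hX3 : (X : ℝ) ^ (ε / 4) ≤ 3 ^ (ε / 4) * (N : ℝ) ^ (lam * (ε / 4)) := by
    calc (X : ℝ) ^ (ε / 4) ≤ (3 * y0) ^ (ε / 4) :=
          Real.rpow_le_rpow (Nat.cast_nonneg _) hXu (by positivity)
      _ = _ := by
          rw [Real.mul_rpow (by norm_num) (by linarith), hy0, ← Real.rpow_mul hN0.le]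
  obtain ⟨B, hB⟩ : ∃ B : ℝ, B = (N : ℝ) ^ (ε * lam) := ⟨_, rfl⟩
  have hB1 : 1 ≤ B := by rw [hB]; exact Real.one_le_rpow hNR (by positivity)
  have hbig : (2 ^ E * Y) ^ 4 ≤ D ^ MA := by
    have h1 : ((2 ^ E * (Y : ℝ)) ^ 4) ≤ (D : ℝ) ^ MA := by
      rw [← hy0] at hYN
      have h2 : y0 ^ 5 ≤ d0 ^ MA := by
        have e1 : y0 ^ 5 = (N : ℝ) ^ (lam * 5) := by
          rw [hy0, Real.rpow_mul hN0.le]
          exact (Real.rpow_natCast _ 5).symm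
        have e2 : d0 ^ MA = (N : ℝ) ^ (κ * lam * (MA : ℝ)) := by
          rw [hd0, Real.rpow_mul hN0.le (κ * lam) (MA : ℝ), Real.rpow_natCast]
        rw [e1, e2]
        apply Real.rpow_le_rpow_of_exponent_le hNR
        linarith [mul_le_mul_of_nonneg_right hMAκ hlam.le]
      calc ((2 ^ E * (Y : ℝ)) ^ 4) ≤ (2 ^ E * y0) ^ 4 := by gcongr
        _ = 2 ^ (4 * E) * y0 ^ 4 := by rw [mul_pow, ← pow_mul, mul_comm E 4]
        _ ≤ y0 * y0 ^ 4 := mul_le_mul_of_nonneg_right (by linarith) (by positivity)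
        _ = y0 ^ 5 := by ring
        _ ≤ d0 ^ MA := h2
        _ ≤ (D : ℝ) ^ MA := pow_le_pow_left₀ (by linarith) hDl _
    exact_mod_cast h1
  -- the three parts
  obtain ⟨F1, hF1⟩ : ∃ F1, F1 = F.filter (fun y => D < radM S MA W1 y) := ⟨_, rfl⟩
  obtain ⟨F0, hF0⟩ : ∃ F0, F0 = F.filter (fun y => ¬ D < radM S MA W1 y) := ⟨_, rfl⟩
  obtain ⟨F2, hF2⟩ : ∃ F2, F2 = F0.filter (fun y => D * D < radM S M3 W2 (k - y)) := ⟨_, rfl⟩
  obtain ⟨F3, hF3⟩ : ∃ F3, F3 = F0.filter (fun y => ¬ D * D < radM S M3 W2 (k - y)) := ⟨_, rfl⟩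
  have hFc : F.card = F1.card + F0.card := by
    rw [hF1, hF0]
    exact (Finset.card_filter_add_card_filter_not (s := F) _).symm
  have hF0c : F0.card = F2.card + F3.card := by
    rw [hF2, hF3]
    exact (Finset.card_filter_add_card_filter_not (s := F0) _).symm
  have hF0m : ∀ y ∈ F0, y ∈ F ∧ radM S MA W1 y ≤ D := by
    intro y hy
    rw [hF0, Finset.mem_filter, not_lt] at hy
    exact hy
  have hc1' : (F1.card : ℝ) ≤ K1 * (Real.sqrt (Y : ℝ) * B) := by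
    have hA : ∀ y ∈ F1, ∃ d : ℕ, Squarefree d ∧ D ≤ d ∧ d ≤ D * W1 ∧ (d : ℤ) ^ MA ∣ y ∧ y ∈ F := by
      intro y hy
      rw [hF1, Finset.mem_filter] at hy
      obtain ⟨d, f1, f2, f3, f4, -⟩ := bad_d S MA W1 D y hW11 hD1 hy.2
      exact ⟨d, f1, f2, f3, f4, hy.1⟩
    choose! gd hsq hDd hdV hdvd hyF using hA
    have h1 : (F1.card : ℝ) ≤ C1 * (Real.sqrt (Y : ℝ) *
        (N : ℝ) ^ ((2 / ((E : ℝ) + 1) + ε / 4 * lam) / 2)) * ((Finset.Icc 1 (D * W1)).card : ℝ) := by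
      apply card_le_real gd
      · intro y hy
        rw [Finset.mem_Icc]
        exact ⟨Nat.one_le_iff_ne_zero.2 (hsq y hy).ne_zero, hdV y hy⟩
      · intro d _
        rcases (F1.filter (fun y => gd y = d)).eq_empty_or_nonempty with h0 | ⟨a1, ha1⟩
        · rw [h0, Finset.card_empty, Nat.cast_zero]
          positivity
        rw [Finset.mem_filter] at ha1
        obtain ⟨ha1F, e1⟩ := ha1
        have g1 := hDd a1 ha1F
        have g2 := hdvd a1 ha1F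
        rw [e1] at g1 g2
        have hq1 : 1 ≤ d ^ MA := Nat.one_le_pow _ _ (by omega)
        have hneq : NeZero (d ^ MA) := ⟨by omega⟩
        have hqN : d ^ MA ≤ N := by
          have h2 := mem_Rset.1 (hF a1 (hyF a1 ha1F)).1
          have h3 : d ^ MA ∣ a1.natAbs := by
            apply Int.natCast_dvd.1
            push_cast
            exact g2
          exact (Nat.le_of_dvd (Int.natAbs_pos.2 h2.1) h3).trans h2.2.1
        have hqb : (2 ^ E * Y) ^ 4 ≤ d ^ MA := hbig.trans (Nat.pow_le_pow_left g1 _)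
        have hqR : (1 : ℝ) ≤ ((d ^ MA : ℕ) : ℝ) := by exact_mod_cast hq1
        have h3 := hc1 Y N (d ^ MA) hY1 hN hq1 hqb
        obtain ⟨A, hA⟩ : ∃ A : Finset ℤ,
          A = (Rset S Y N).filter (fun a => IsCoprime a ((d ^ MA : ℕ) : ℤ)) := ⟨_, rfl⟩
        rw [← hA] at h3
        have hfib : (F1.filter (fun y => gd y = d)).card ≤
            (A.filter (fun b : ℤ => (b : ZMod (d ^ MA)) = ((k : ℤ) : ZMod (d ^ MA)))).card := by
          refine Finset.card_le_card_of_injOn (fun y => k - y) ?_ ?_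
          · intro y hy
            rw [Finset.mem_coe, Finset.mem_filter] at hy
            obtain ⟨hyF1, ey⟩ := hy
            have f1 := hdvd y hyF1
            rw [ey] at f1
            obtain ⟨-, f2, f3, -⟩ := hF y (hyF y hyF1)
            have f4 : ((d ^ MA : ℕ) : ℤ) ∣ y := by
              push_cast
              exact f1
            rw [Finset.mem_coe, Finset.mem_filter, hA, Finset.mem_filter]
            refine ⟨⟨f2, f3.of_isCoprime_of_dvd_right f4⟩, ?_⟩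
            rw [← sub_eq_zero, ← Int.cast_sub, ZMod.intCast_zmod_eq_zero_iff_dvd]
            have e5 : k - y - k = - y := by ring
            rw [e5]
            exact (dvd_neg).2 f4
          · intro y _ y' _ h
            have h' : k - y = k - y' := h
            linarith
        have h4 : (((F1.filter (fun y => gd y = d)).card : ℕ) : ℝ) ≤
            ((A.filter (fun b : ℤ => (b : ZMod (d ^ MA)) = ((k : ℤ) : ZMod (d ^ MA)))).card : ℝ) := by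
          exact_mod_cast hfib
        refine h4.trans ?_
        have hpos : (0 : ℝ) ≤ C1 * (Real.sqrt (Y : ℝ) *
            (N : ℝ) ^ ((2 / ((E : ℝ) + 1) + ε / 4 * lam) / 2)) := by positivity
        refine (sq_le_sq₀ (Nat.cast_nonneg _) hpos).1 ?_
        refine (linf (d ^ MA) A _).trans (h3.trans ?_)
        have h9 : Real.sqrt (Y : ℝ) ^ 2 = (Y : ℝ) := Real.sq_sqrt (Nat.cast_nonneg _)
        have h10 : ((N : ℝ) ^ ((2 / ((E : ℝ) + 1) + ε / 4 * lam) / 2)) ^ 2 =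
            (N : ℝ) ^ (ε / 8 * lam) * (N : ℝ) ^ (2 / ((E : ℝ) + 1) + ε / 8 * lam) := by
          rw [← Real.rpow_add hN0, ← Real.rpow_natCast, ← Real.rpow_mul hN0.le]
          congr 1
          push_cast
          ring
        rw [mul_pow, mul_pow, h9, h10]
        have h11 : ((d ^ MA : ℕ) : ℝ) ^ (ε / 8 * lam) ≤ (N : ℝ) ^ (ε / 8 * lam) :=
          Real.rpow_le_rpow (by linarith) (by exact_mod_cast hqN) (by positivity)
        have h12 : C1 ≤ C1 ^ 2 := by nlinarith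
        calc C1 * ((d ^ MA : ℕ) : ℝ) ^ (ε / 8 * lam) *
              ((Y : ℝ) * (N : ℝ) ^ (2 / ((E : ℝ) + 1) + ε / 8 * lam))
            ≤ C1 ^ 2 * (N : ℝ) ^ (ε / 8 * lam) *
              ((Y : ℝ) * (N : ℝ) ^ (2 / ((E : ℝ) + 1) + ε / 8 * lam)) := by gcongr
          _ = _ := by ring
    have e1 : ((Finset.Icc 1 (D * W1)).card : ℝ) ≤
        4 * ((N : ℝ) ^ (κ * lam) * (N : ℝ) ^ (κW * lam)) := by
      rw [Nat.card_Icc, Nat.add_sub_cancel]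
      push_cast
      calc (D : ℝ) * W1 ≤ (2 * d0) * (2 * w1) := by gcongr
        _ = _ := by rw [hd0, hw1]; ring
    have e2 : (N : ℝ) ^ ((2 / ((E : ℝ) + 1) + ε / 4 * lam) / 2) *
        ((N : ℝ) ^ (κ * lam) * (N : ℝ) ^ (κW * lam)) ≤ B := by
      rw [hB, ← Real.rpow_add hN0, ← Real.rpow_add hN0]
      apply Real.rpow_le_rpow_of_exponent_le hNR
      linarith [mul_le_mul_of_nonneg_right hκε hlam.le, mul_le_mul_of_nonneg_right hWκ hlam.le,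
        mul_pos hε hlam]
    calc (F1.card : ℝ) ≤ _ := h1
      _ ≤ C1 * (Real.sqrt (Y : ℝ) * (N : ℝ) ^ ((2 / ((E : ℝ) + 1) + ε / 4 * lam) / 2)) *
          (4 * ((N : ℝ) ^ (κ * lam) * (N : ℝ) ^ (κW * lam))) :=
          mul_le_mul_of_nonneg_left e1 (by positivity)
      _ = K1 * (Real.sqrt (Y : ℝ) * ((N : ℝ) ^ ((2 / ((E : ℝ) + 1) + ε / 4 * lam) / 2) *
          ((N : ℝ) ^ (κ * lam) * (N : ℝ) ^ (κW * lam)))) := by rw [hK1]; ring
      _ ≤ _ := by gcongr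
  have hc2' : (F2.card : ℝ) ≤ K2 * B := by
    have hA : ∀ y ∈ F2, ∃ d : ℕ, Squarefree d ∧ D ≤ d ∧ d ≤ D * W2 ∧ (d : ℤ) ^ M3 ∣ k - y ∧
        (∀ p ∈ d.primeFactors, p.Prime ∧ p ∉ S ∧ p ≤ W2 ∧ ¬ (p : ℤ) ^ MA ∣ y) ∧ y ∈ F ∧
        radM S MA W1 y ≤ D := by
      intro y hy
      rw [hF2, Finset.mem_filter] at hy
      obtain ⟨hyF, hr⟩ := hF0m y hy.1
      obtain ⟨g1, g2, -, -⟩ := hF y hyF
      obtain ⟨d, f1, f2, f3, f4, f5⟩ := bad_pair S MA W1 M3 W2 D y (k - y) hMA1 hM3 hW21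
        hW12 hD1 (mem_Rset.1 g1).1 (mem_Rset.1 g2).1 hr hy.2
      exact ⟨d, f1, f2, f3, f4, f5, hyF, hr⟩
    choose! gd hsq hDd hdV hdvd hdp hyF hyr using hA
    have h1 : (F2.card : ℝ) ≤ (C2 * (D : ℝ) ^ 2 * ((X : ℝ) ^ (ε / 4) * (N : ℝ) ^ (ε / 4 * lam))) *
        ((Finset.Icc 1 (D * W2)).card : ℝ) := by
      apply card_le_real gd
      · intro y hy
        rw [Finset.mem_Icc]
        exact ⟨Nat.one_le_iff_ne_zero.2 (hsq y hy).ne_zero, hdV y hy⟩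
      · intro d _
        rcases (F2.filter (fun y => gd y = d)).eq_empty_or_nonempty with h0 | ⟨a1, ha1⟩
        · rw [h0, Finset.card_empty, Nat.cast_zero]
          positivity
        rw [Finset.mem_filter] at ha1
        obtain ⟨ha1F, e1⟩ := ha1
        have g1 := hsq a1 ha1F
        have g2 := hDd a1 ha1F
        have g3 := hdV a1 ha1F
        have g4 := hdp a1 ha1F
        rw [e1] at g1 g2 g3 g4
        refine hc2 N X W1 D hN hX2 hW1X hD1 hXW1 hNW1 d g1 (g3.trans hVX)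
          (hXκD.trans (by exact_mod_cast g2)) ?_ k _ ?_
        · intro p hp
          have h3 := (g4 p hp).2.2.1
          have h4 := (g4 p hp).1.one_lt.le
          calc p ^ M2 ≤ p ^ M3 := Nat.pow_le_pow_right h4 (by omega)
            _ ≤ W2 ^ M3 := Nat.pow_le_pow_left h3 _
            _ ≤ X := hW2M
        · intro y hy
          rw [Finset.mem_filter] at hy
          obtain ⟨hy2, ey⟩ := hy
          have f1 := hdvd y hy2
          have f2 := hdp y hy2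
          rw [ey] at f1 f2
          refine ⟨hmX y Y' hYX' (hF y (hyF y hy2)).1, hyr y hy2, fun p hp => (f2 p hp).2.2.2, ?_⟩
          rw [← hM3d, ← neg_sub]
          exact (dvd_neg).2 f1
    have e1 : ((Finset.Icc 1 (D * W2)).card : ℝ) * (D : ℝ) ^ 2 ≤
        2 ^ 4 * ((N : ℝ) ^ (κ2 * lam) * (N : ℝ) ^ (κ * lam * 3)) := by
      rw [Nat.card_Icc, Nat.add_sub_cancel]
      push_cast
      calc (D : ℝ) * W2 * (D : ℝ) ^ 2 ≤ (2 * d0) * (2 * w2) * (2 * d0) ^ 2 := by gcongr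
        _ = 2 ^ 4 * (w2 * d0 ^ 3) := by ring
        _ = _ := by
            rw [hw2, hd0, Real.rpow_mul hN0.le (κ * lam) 3]
            congr 2
            exact (Real.rpow_natCast _ 3).symm
    have e2 : (N : ℝ) ^ (κ2 * lam) * (N : ℝ) ^ (κ * lam * 3) * (N : ℝ) ^ (lam * (ε / 4)) *
        (N : ℝ) ^ (ε / 4 * lam) ≤ B := by
      rw [hB, ← Real.rpow_add hN0, ← Real.rpow_add hN0, ← Real.rpow_add hN0]
      apply Real.rpow_le_rpow_of_exponent_le hNR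
      linarith [mul_le_mul_of_nonneg_right hκε hlam.le,
        mul_le_mul_of_nonneg_right hκ2κ hlam.le, mul_le_mul_of_nonneg_right hWκ hlam.le,
        mul_pos hε hlam]
    calc (F2.card : ℝ) ≤ _ := h1
      _ = C2 * (((Finset.Icc 1 (D * W2)).card : ℝ) * (D : ℝ) ^ 2) *
          ((X : ℝ) ^ (ε / 4) * (N : ℝ) ^ (ε / 4 * lam)) := by ring
      _ ≤ C2 * (2 ^ 4 * ((N : ℝ) ^ (κ2 * lam) * (N : ℝ) ^ (κ * lam * 3))) *
          ((3 ^ (ε / 4) * (N : ℝ) ^ (lam * (ε / 4))) * (N : ℝ) ^ (ε / 4 * lam)) := by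
          gcongr
      _ = K2 * ((N : ℝ) ^ (κ2 * lam) * (N : ℝ) ^ (κ * lam * 3) *
          (N : ℝ) ^ (lam * (ε / 4)) * (N : ℝ) ^ (ε / 4 * lam)) := by rw [hK2]; ring
      _ ≤ _ := by gcongr
  have hc3' : (F3.card : ℝ) ≤ K3 * B := by
    have h2 := hc3 N X W2 (D * D) hN hX2 hW2X (Nat.mul_pos hD1 hD1) hXW2 hNW2 k F3 (by
        intro y hy
        rw [hF3, Finset.mem_filter, not_lt] at hy
        obtain ⟨hyF0, hgood⟩ := hy
        obtain ⟨hyF, hat⟩ := hF0m y hyF0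
        obtain ⟨g1, g2, -, g4⟩ := hF y hyF
        refine ⟨hmX y Y' hYX' g1, hmX _ Y hYX g2, ?_, hgood, ?_⟩
        · calc radM S M3 W2 y ≤ radM S MA W1 y := radM_mono S (by omega) hW12 y
            _ ≤ D := hat
            _ ≤ D * D := Nat.le_mul_of_pos_left _ hD1
        · rw [← hLm]
          exact g4)
    have e1 : ((D * D : ℕ) : ℝ) ^ 4 ≤ 2 ^ 8 * (N : ℝ) ^ (κ * lam * 8) := by
      push_cast
      calc ((D : ℝ) * D) ^ 4 ≤ ((2 * d0) * (2 * d0)) ^ 4 := by gcongr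
        _ = 2 ^ 8 * d0 ^ 8 := by ring
        _ = _ := by
            rw [hd0, Real.rpow_mul hN0.le (κ * lam) 8]
            congr 1
            exact (Real.rpow_natCast _ 8).symm
    have e2 : (N : ℝ) ^ (κ * lam * 8) * (N : ℝ) ^ (lam * (ε / 4)) *
        (N : ℝ) ^ (ε / 4 * lam) ≤ B := by
      rw [hB, ← Real.rpow_add hN0, ← Real.rpow_add hN0]
      apply Real.rpow_le_rpow_of_exponent_le hNR
      linarith [mul_le_mul_of_nonneg_right hκε hlam.le, mul_pos hε hlam]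
    calc (F3.card : ℝ) ≤ _ := h2
      _ ≤ C3 * (2 ^ 8 * (N : ℝ) ^ (κ * lam * 8)) *
          ((3 ^ (ε / 4) * (N : ℝ) ^ (lam * (ε / 4))) * (N : ℝ) ^ (ε / 4 * lam)) := by
          gcongr
      _ = K3 * ((N : ℝ) ^ (κ * lam * 8) * (N : ℝ) ^ (lam * (ε / 4)) *
          (N : ℝ) ^ (ε / 4 * lam)) := by rw [hK3]; ring
      _ ≤ _ := by gcongr
  rw [← hB]
  have e5 : 1 * B ≤ Real.sqrt (Y : ℝ) * B := mul_le_mul_of_nonneg_right hsY (by linarith)
  have e6 := mul_le_mul_of_nonneg_left e5 hK20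
  have e7 := mul_le_mul_of_nonneg_left e5 hK30
  have e8 : 0 ≤ Real.sqrt (Y : ℝ) * B := by positivity
  rw [hFc, hF0c]
  push_cast
  linarith

theorem twoSum (ε : ℝ) (hε : 0 < ε) :
    ∃ (K : ℕ) (lam0 : ℝ), 1 ≤ K ∧ 0 < lam0 ∧ ∀ lam : ℝ, 0 < lam → lam ≤ lam0 → ∀ S : Finset ℕ,
      ∃ (C : ℝ) (N1 : ℕ), 1 ≤ C ∧ ∀ N : ℕ, N1 ≤ N → 1 ≤ N →
      ∃ Lm : ℤ, 1 ≤ Lm ∧ (Lm : ℝ) ≤ (N : ℝ) ^ ((K : ℝ) * lam) ∧
      ∀ Y Y' : ℕ, 1 ≤ Y → (Y : ℝ) ≤ (N : ℝ) ^ lam → 1 ≤ Y' → (Y' : ℝ) ≤ (N : ℝ) ^ lam →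
      ∀ (c : ℤ) (P : Finset (ℤ × ℤ)), (∀ p ∈ P, p.1 ∈ Rset S Y N ∧ p.2 ∈ Rset S Y' N ∧
        p.1 + p.2 = c ∧ NSR Lm p.1 p.2) →
      (P.card : ℝ) ≤ C * (Real.sqrt (Y : ℝ) * (N : ℝ) ^ (ε * lam)) := by
  classical
  obtain ⟨K, lam0, hK, hlam0, h⟩ := twoK (ε / 2) (by positivity)
  refine ⟨K, lam0, hK, hlam0, fun lam hlam hle S => ?_⟩
  obtain ⟨C, N1, hC, h⟩ := h lam hlam hle S
  obtain ⟨C4, hC4, htau⟩ := tau_rpow (ε / 2 * lam) (by positivity)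
  obtain ⟨R2, hR2⟩ : ∃ R : ℝ, R = 2 ^ (ε / 2 * lam) := ⟨_, rfl⟩
  have hR21 : 1 ≤ R2 := by rw [hR2]; exact Real.one_le_rpow (by norm_num) (by positivity)
  refine ⟨C * (2 * (C4 * R2)), N1, ?_, fun N hNN hN => ?_⟩
  · have h1 : 1 ≤ C4 * R2 := one_le_mul_of_one_le_of_one_le hC4 hR21
    exact one_le_mul_of_one_le_of_one_le hC (by linarith)
  obtain ⟨Lm, hL1, hLN, h⟩ := h N hNN hN
  refine ⟨Lm, hL1, hLN, fun Y Y' hY hYN hY' hYN' c P hP => ?_⟩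
  have hNR : (1 : ℝ) ≤ (N : ℝ) := by exact_mod_cast hN
  have hN0 : (0 : ℝ) < (N : ℝ) := by linarith
  rcases P.eq_empty_or_nonempty with h0 | ⟨p1, hp1⟩
  · rw [h0, Finset.card_empty, Nat.cast_zero]
    positivity
  have hP' : ∀ p ∈ P, ∃ g x y : ℤ, p.1 = g * x ∧ p.2 = g * y ∧ IsCoprime x y ∧
      NoSmallRatio y (y + x) Lm := fun p hp => (hP p hp).2.2.2
  choose! g x y hx hy hxy hns using hP'
  have hcg : ∀ p ∈ P, c = g p * (x p + y p) := by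
    intro p hp
    rw [← (hP p hp).2.2.1]
    conv_lhs => rw [hx p hp, hy p hp]
    ring
  have hc0 : c ≠ 0 := by
    intro h1
    have h2 := hcg p1 hp1
    rw [h1] at h2
    rcases mul_eq_zero.1 h2.symm with h3 | h3
    · have h4 := hx p1 hp1
      rw [h3, zero_mul] at h4
      exact (mem_Rset.1 (hP p1 hp1).1).1 h4
    · have h5 : y p1 + x p1 = 0 := by rw [add_comm]; exact h3
      have h4 := hns p1 hp1 1 0 (by simpa using hL1) (by simpa using (by linarith : (0 : ℤ) ≤ Lm))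
        (by rw [h5]; ring)
      exact one_ne_zero h4.1
  have hcN : c.natAbs ≤ 2 * N := by
    obtain ⟨f1, f2, f3, -⟩ := hP p1 hp1
    have h1 := (mem_Rset.1 f1).2.1
    have h2 := (mem_Rset.1 f2).2.1
    rw [← f3]
    have := Int.natAbs_add_le p1.1 p1.2
    omega
  obtain ⟨U, hU⟩ : ∃ U : Finset (Bool × ℕ), U = Finset.univ ×ˢ c.natAbs.divisors := ⟨_, rfl⟩
  have hUc : (U.card : ℝ) ≤ 2 * (C4 * R2 * (N : ℝ) ^ (ε / 2 * lam)) := by
    have h1 : U.card = 2 * tau c.natAbs := by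
      rw [hU, Finset.card_product]
      simp [tau]
    rw [h1]
    push_cast
    have h2 := htau c.natAbs (Int.natAbs_ne_zero.2 hc0)
    have h3 : (c.natAbs : ℝ) ^ (ε / 2 * lam) ≤ R2 * (N : ℝ) ^ (ε / 2 * lam) := by
      rw [hR2, ← Real.mul_rpow (by norm_num) hN0.le]
      apply Real.rpow_le_rpow (Nat.cast_nonneg _) _ (by positivity)
      exact_mod_cast hcN
    have h4 : C4 * (c.natAbs : ℝ) ^ (ε / 2 * lam) ≤ C4 * (R2 * (N : ℝ) ^ (ε / 2 * lam)) :=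
      mul_le_mul_of_nonneg_left h3 (by linarith)
    have h5 : C4 * (R2 * (N : ℝ) ^ (ε / 2 * lam)) = C4 * R2 * (N : ℝ) ^ (ε / 2 * lam) := by ring
    linarith
  have hstep : (P.card : ℝ) ≤ (C * (Real.sqrt (Y : ℝ) * (N : ℝ) ^ (ε / 2 * lam))) * (U.card : ℝ) := by
    apply card_le_real (fun p => (decide (0 < g p), (g p).natAbs))
    · intro p hp
      rw [hU, Finset.mem_product, Nat.mem_divisors]
      refine ⟨Finset.mem_univ _, Int.natAbs_dvd_natAbs.2 ⟨_, hcg p hp⟩, Int.natAbs_ne_zero.2 hc0⟩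
    · rintro ⟨s, d⟩ _
      rcases (P.filter (fun p => (decide (0 < g p), (g p).natAbs) = (s, d))).eq_empty_or_nonempty
        with h0 | ⟨p2, hp2⟩
      · rw [h0, Finset.card_empty, Nat.cast_zero]
        positivity
      obtain ⟨F, hF⟩ : ∃ F : Finset (ℤ × ℤ),
        F = P.filter (fun p => (decide (0 < g p), (g p).natAbs) = (s, d)) := ⟨_, rfl⟩
      rw [← hF] at hp2 ⊢
      have hkey : ∀ p ∈ F, p ∈ P ∧ g p = g p2 := by
        intro p hp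
        rw [hF, Finset.mem_filter, Prod.mk.injEq] at hp hp2
        refine ⟨hp.1, ?_⟩
        have h1 : decide (0 < g p) = decide (0 < g p2) := hp.2.1.trans hp2.2.1.symm
        have h2 : (g p).natAbs = (g p2).natAbs := hp.2.2.trans hp2.2.2.symm
        have h3 : (0 < g p) ↔ (0 < g p2) := by simpa using h1
        omega
      have hp2P := (hkey p2 hp2).1
      have hg0 : g p2 ≠ 0 := by
        intro h1
        have h2 := hcg p2 hp2P
        rw [h1, zero_mul] at h2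
        exact hc0 h2
      obtain ⟨k, hk⟩ : ∃ k : ℤ, k = x p2 + y p2 := ⟨_, rfl⟩
      have hsum : ∀ p ∈ F, x p + y p = k := by
        intro p hp
        obtain ⟨hpP, e1⟩ := hkey p hp
        have h1 := hcg p hpP
        have h2 := hcg p2 hp2P
        rw [e1] at h1
        rw [h1, ← hk] at h2
        exact mul_left_cancel₀ hg0 h2
      have h1 := h Y Y' hY hYN hY' hYN' k (F.image y) (by
        intro w hw
        obtain ⟨p, hp, rfl⟩ := Finset.mem_image.1 hw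
        obtain ⟨hpP, e1⟩ := hkey p hp
        obtain ⟨f1, f2, f3, -⟩ := hP p hpP
        have e2 : k - y p = x p := by rw [← hsum p hp]; ring
        have hdv : ∀ (u v : ℤ) (Z : ℕ), u ∈ Rset S Z N → v ∣ u → v ∈ Rset S Z N := by
          intro u v Z hu hvu
          have h4 := mem_Rset.1 hu
          have hv0 : v ≠ 0 := by
            rintro rfl
            exact h4.1 (zero_dvd_iff.1 hvu)
          exact mem_Rset.2 ⟨hv0, (Nat.le_of_dvd (Int.natAbs_pos.2 h4.1)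
            (Int.natAbs_dvd_natAbs.2 hvu)).trans h4.2.1,
            (radS_le_of_dvd S hvu h4.1).trans h4.2.2⟩
        rw [e2]
        refine ⟨hdv _ _ _ f2 ⟨g p, by rw [hy p hpP]; ring⟩,
          hdv _ _ _ f1 ⟨g p, by rw [hx p hpP]; ring⟩, hxy p hpP, ?_⟩
        have h5 := hns p hpP
        rw [add_comm, hsum p hp] at h5
        exact h5)
      have h2 : (F.image y).card = F.card := by
        apply Finset.card_image_of_injOn
        intro p hp q hq hpq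
        obtain ⟨hpP, e1⟩ := hkey p (Finset.mem_coe.1 hp)
        obtain ⟨hqP, e2⟩ := hkey q (Finset.mem_coe.1 hq)
        have i1 : y p = y q := hpq
        have i2 : x p = x q := by
          have s1 := hsum p (Finset.mem_coe.1 hp)
          have s2 := hsum q (Finset.mem_coe.1 hq)
          rw [i1] at s1
          linarith
        apply Prod.ext
        · rw [hx p hpP, hx q hqP, e1, e2, i2]
        · rw [hy p hpP, hy q hqP, e1, e2, i1]
      rw [h2] at h1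
      exact h1
  have hexp : (N : ℝ) ^ (ε / 2 * lam) * (N : ℝ) ^ (ε / 2 * lam) = (N : ℝ) ^ (ε * lam) := by
    rw [← Real.rpow_add hN0]
    congr 1
    ring
  calc (P.card : ℝ) ≤ _ := hstep
    _ ≤ (C * (Real.sqrt (Y : ℝ) * (N : ℝ) ^ (ε / 2 * lam))) *
        (2 * (C4 * R2 * (N : ℝ) ^ (ε / 2 * lam))) :=
        mul_le_mul_of_nonneg_left hUc (by positivity)
    _ = C * (2 * (C4 * R2)) * (Real.sqrt (Y : ℝ) *
        ((N : ℝ) ^ (ε / 2 * lam) * (N : ℝ) ^ (ε / 2 * lam))) := by ring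
    _ = _ := by rw [hexp]

end Pool.Agent.Helper87.TY
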