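import Pool.Agent.Helper87.TY.FixY
import Pool.Agent.Helper24.TW.Up

/-!
TY-Y5b (MP_464c42_nt). From `fixY` to the points: copy of `up_x` (`Helper97/TX/Up.lean`).
`Q`: with `z = 0`, `t = last`, `Y i = ⌊H ^ (y i * lam)⌋` and `c ≠ z, t`: `y c ≥ y 1`.
(helper93)
-/

set_option autoImplicit false

open Pool.Agent.Helper87.Camp Pool.Agent.Helper10 Pool.Agent.Helper91.CPX

namespace Pool.Agent.Helper87.TY

open Pool.Agent.Helper24.TU Pool.Agent.Helper24.TV Pool.Agent.Helper87.RP Pool.Agent.Helper24.TW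
  Pool.Agent.Helper97.TX

private lemma uy_ht_pos {n : ℕ} (x : Fin (n + 1) → ℤ) (hx : ∀ d : ℤ, (∀ j, d ∣ x j) → IsUnit d) :
    ht x ≠ 0 := by
  intro h
  have h1 : ∀ j, (0 : ℤ) ∣ x j := by
    intro j
    have h2 := le_ht x j
    rw [h] at h2
    have h3 : x j = 0 := Int.natAbs_eq_zero.1 (Nat.le_zero.1 h2)
    rw [h3]
  exact not_isUnit_zero (hx 0 h1)

private lemma uy_geom (r : ℝ) (hr : 1 < r) (m : ℕ) :
    ∑ k ∈ Finset.range (m + 1), r ^ (k + 1) ≤ r ^ 2 / (r - 1) * r ^ m := by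
  have h0 : 0 < r - 1 := by linarith
  rw [div_mul_eq_mul_div, le_div_iff₀ h0]
  induction m with
  | zero =>
    rw [Finset.sum_range_one]
    have h1 : r ^ (0 + 1) * (r - 1) = r ^ 2 * r ^ 0 - r := by ring
    linarith
  | succ m ih =>
    rw [Finset.sum_range_succ, add_mul]
    have h1 : r ^ (m + 1 + 1) * (r - 1) = r ^ 2 * r ^ (m + 1) - r ^ 2 * r ^ m := by ring
    linarith

/-- The number `Q`. -/
private lemma uy_Q {n : ℕ} (hn : 2 ≤ n) (Y : Fin (n + 2) → ℕ) (hY : ∀ i, 1 ≤ Y i) (hm : Monotone Y)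
    (z : ℝ) (hz : 1 ≤ z) (w : Fin (n + 2) → ℝ) (hw : ∀ i, (Y i : ℝ) ≤ z ^ w i)
    (c : Fin (n + 2)) (hc0 : c ≠ 0) (hct : c ≠ Fin.last (n + 1)) :
    (∏ h ∈ (Finset.univ.erase (Fin.last (n + 1))).erase c, (Y h : ℝ)) ≤
      z ^ (∑ i, w i - w (Fin.last (n + 1)) - w 1) := by
  have hz0 : 0 < z := by linarith
  have hYR : ∀ i, (1 : ℝ) ≤ (Y i : ℝ) := fun i => by exact_mod_cast hY i
  have hY0 : ∀ i, (0 : ℝ) < (Y i : ℝ) := fun i => by linarith [hYR i]
  have h1t : (1 : Fin (n + 2)) ≠ Fin.last (n + 1) := by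
    intro h
    have h1 := congrArg Fin.val h
    rw [Fin.val_last, Fin.val_one] at h1
    omega
  have h1 : (1 : Fin (n + 2)) ∈ Finset.univ.erase (Fin.last (n + 1)) :=
    Finset.mem_erase.2 ⟨h1t, Finset.mem_univ _⟩
  have hc : c ∈ Finset.univ.erase (Fin.last (n + 1)) :=
    Finset.mem_erase.2 ⟨hct, Finset.mem_univ _⟩
  have h1c : (Y 1 : ℝ) ≤ Y c := by exact_mod_cast hm (Fin.one_le_of_ne_zero hc0)
  have e1 := Finset.mul_prod_erase _ (fun h => (Y h : ℝ)) h1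
  have e2 := Finset.mul_prod_erase _ (fun h => (Y h : ℝ)) hc
  have hP0 : 0 ≤ ∏ h ∈ (Finset.univ.erase (Fin.last (n + 1))).erase 1, (Y h : ℝ) :=
    Finset.prod_nonneg fun i _ => (hY0 i).le
  have h2 : (∏ h ∈ (Finset.univ.erase (Fin.last (n + 1))).erase c, (Y h : ℝ)) ≤
      ∏ h ∈ (Finset.univ.erase (Fin.last (n + 1))).erase 1, (Y h : ℝ) := by
    refine le_of_mul_le_mul_left ?_ (hY0 c)
    calc (Y c : ℝ) * ∏ h ∈ (Finset.univ.erase (Fin.last (n + 1))).erase c, (Y h : ℝ) =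
          (Y 1 : ℝ) * ∏ h ∈ (Finset.univ.erase (Fin.last (n + 1))).erase 1, (Y h : ℝ) := by
            rw [e1, e2]
      _ ≤ (Y c : ℝ) * ∏ h ∈ (Finset.univ.erase (Fin.last (n + 1))).erase 1, (Y h : ℝ) :=
          mul_le_mul_of_nonneg_right h1c hP0
  refine h2.trans ?_
  have h3 : ∑ i, w i - w (Fin.last (n + 1)) - w 1 =
      ∑ i ∈ (Finset.univ.erase (Fin.last (n + 1))).erase 1, w i := by
    have e3 := Finset.add_sum_erase Finset.univ w (Finset.mem_univ (Fin.last (n + 1)))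
    have e4 := Finset.add_sum_erase _ w h1
    linarith
  rw [h3, Real.rpow_sum_of_pos hz0]
  exact Finset.prod_le_prod (fun i _ => (hY0 _).le) fun i _ => hw _

theorem up_y (n : ℕ) (hn : 2 ≤ n) (ε : ℝ) (hε : 0 < ε) :
    ∃ lam₀ : ℝ, 0 < lam₀ ∧ ∀ lam : ℝ, 0 < lam → lam ≤ lam₀ →
      ∀ (S : Finset ℕ) (L : Matrix (Fin (n + 2)) (Fin (n + 1)) ℤ), (∀ i, minor L i ≠ 0) →
      ∃ C : ℝ, ∀ y : Fin (n + 2) → ℝ, (∀ i, 0 ≤ y i ∧ y i ≤ 1) → Monotone y →
        ∀ B : ℕ, 1 ≤ B → (ptsW S L y lam B).Finite ∧ ((ptsW S L y lam B).ncard : ℝ) ≤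
          C * (B : ℝ) ^ ((∑ i, y i - y (Fin.last (n + 1)) - y 1 + ε) * lam) := by
  classical
  obtain ⟨lam0, hlam0, hmain⟩ := fixY n hn ε hε
  refine ⟨lam0, hlam0, fun lam hlam hle S L hL => ?_⟩
  obtain ⟨K0, hK1, hmain⟩ := hmain lam hlam hle S L hL
  obtain ⟨C, hC1, hC⟩ := hmain K0 le_rfl
  obtain ⟨a, ha⟩ : ∃ a : ℝ, a = ε * lam := ⟨_, rfl⟩
  have ha0 : 0 < a := by rw [ha]; positivity
  obtain ⟨b, hb⟩ : ∃ b : ℝ, b = (((n + 2 : ℕ) : ℝ) + ε) * lam := ⟨_, rfl⟩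
  have hr1 : 1 < (2 : ℝ) ^ a := Real.one_lt_rpow (by norm_num) ha0
  refine ⟨C * (K0 : ℝ) ^ a * (((2 : ℝ) ^ b) ^ 2 / ((2 : ℝ) ^ a - 1)), fun y hy hym B hB => ?_⟩
  -- the exponent
  have h1t : (1 : Fin (n + 2)) ≠ Fin.last (n + 1) := by
    intro h
    have h1 := congrArg Fin.val h
    rw [Fin.val_last, Fin.val_one] at h1
    omega
  have h1m : (1 : Fin (n + 2)) ∈ Finset.univ.erase (Fin.last (n + 1)) :=
    Finset.mem_erase.2 ⟨h1t, Finset.mem_univ _⟩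
  obtain ⟨g, hg⟩ : ∃ g : ℝ, g = ∑ i, y i - y (Fin.last (n + 1)) - y 1 := ⟨_, rfl⟩
  have hg1 : g = ∑ i ∈ (Finset.univ.erase (Fin.last (n + 1))).erase 1, y i := by
    have e3 := Finset.add_sum_erase Finset.univ y (Finset.mem_univ (Fin.last (n + 1)))
    have e4 := Finset.add_sum_erase _ y h1m
    linarith
  have hg0 : 0 ≤ g := by
    rw [hg1]
    exact Finset.sum_nonneg fun i _ => (hy i).1
  have hgk : g ≤ ((n + 2 : ℕ) : ℝ) := by
    rw [hg]
    have h1 : ∑ i, y i ≤ ∑ _i : Fin (n + 2), (1 : ℝ) := Finset.sum_le_sum fun i _ => (hy i).2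
    rw [Finset.sum_const, Finset.card_univ, Fintype.card_fin, nsmul_eq_mul, mul_one] at h1
    linarith [(hy 1).1, (hy (Fin.last (n + 1))).1]
  obtain ⟨e, he⟩ : ∃ e : ℝ, e = (g + ε) * lam := ⟨_, rfl⟩
  have hae : a ≤ e := by
    rw [ha, he]
    exact mul_le_mul_of_nonneg_right (by linarith) hlam.le
  have heb : e ≤ b := by
    rw [he, hb]
    exact mul_le_mul_of_nonneg_right (by linarith) hlam.le
  have he0 : 0 < e := by linarith
  rw [← hg, ← he]
  obtain ⟨P, hP⟩ : ∃ P : (Fin (n + 1) → ℤ) → Prop, P = fun x =>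
    (∀ d : ℤ, (∀ j, d ∣ x j) → IsUnit d) ∧
      (∀ i, form L i x ≠ 0 ∧ (radS S (form L i x) : ℝ) ≤ (ht x : ℝ) ^ (y i * lam)) ∧
        ht x ≤ B := ⟨_, rfl⟩
  obtain ⟨F, hF⟩ : ∃ F : Finset (Fin (n + 1) → ℤ), F =
    (Fintype.piFinset (fun _ => Finset.Icc (-(B : ℤ)) B)).filter P := ⟨_, rfl⟩
  have hset : ptsW S L y lam B = (F : Set (Fin (n + 1) → ℤ)) := by
    have h0 : ptsW S L y lam B = {x | P x} := by
      rw [hP]
      rfl
    rw [h0]
    ext x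
    rw [Set.mem_ofPred_eq, Finset.mem_coe, hF, Finset.mem_filter, Fintype.mem_piFinset]
    constructor
    · intro h
      refine ⟨fun j => ?_, h⟩
      rw [hP] at h
      have h1 := (le_ht x j).trans h.2.2
      rw [Finset.mem_Icc]
      omega
    · intro h
      exact h.2
  rw [hset]
  refine ⟨F.finite_toSet, ?_⟩
  rw [Set.ncard_coe_finset]
  have hfib : ∀ m : ℕ, ((F.filter (fun x => Nat.log 2 (ht x) = m)).card : ℝ) ≤
      C * (K0 : ℝ) ^ a * ((2 : ℝ) ^ e) ^ (m + 1) := by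
    intro m
    obtain ⟨H, hH⟩ : ∃ H : ℕ, H = 2 ^ (m + 1) := ⟨_, rfl⟩
    have hH1 : 1 ≤ H := by rw [hH]; exact Nat.one_le_two_pow
    have hHR : (1 : ℝ) ≤ (H : ℝ) := by exact_mod_cast hH1
    have hH0 : (0 : ℝ) < (H : ℝ) := by linarith
    have hK0R : (1 : ℝ) ≤ (K0 : ℝ) := by exact_mod_cast hK1
    obtain ⟨Y, hYd⟩ : ∃ Y : Fin (n + 2) → ℕ, Y = fun i => ⌊(H : ℝ) ^ (y i * lam)⌋₊ := ⟨_, rfl⟩
    have hYe : ∀ i, Y i = ⌊(H : ℝ) ^ (y i * lam)⌋₊ := fun i => by rw [hYd]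
    have hyl : ∀ i, 0 ≤ y i * lam := fun i => mul_nonneg (hy i).1 hlam.le
    have hY1 : ∀ i, 1 ≤ Y i := by
      intro i
      rw [hYe]
      apply Nat.le_floor
      rw [Nat.cast_one]
      exact Real.one_le_rpow hHR (hyl i)
    have hYle : ∀ i, (Y i : ℝ) ≤ (H : ℝ) ^ (y i * lam) := by
      intro i
      rw [hYe]
      exact Nat.floor_le (Real.rpow_nonneg hH0.le _)
    have hYm : Monotone Y := by
      intro i j hij
      rw [hYe, hYe]
      apply Nat.floor_le_floor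
      exact Real.rpow_le_rpow_of_exponent_le hHR (mul_le_mul_of_nonneg_right (hym hij) hlam.le)
    have hYlam : ∀ i, 1 ≤ Y i ∧ (Y i : ℝ) ≤ ((K0 * H : ℕ) : ℝ) ^ lam := by
      intro i
      refine ⟨hY1 i, (hYle i).trans ?_⟩
      calc (H : ℝ) ^ (y i * lam) ≤ (H : ℝ) ^ lam := by
            apply Real.rpow_le_rpow_of_exponent_le hHR
            calc y i * lam ≤ 1 * lam := mul_le_mul_of_nonneg_right (hy i).2 hlam.le
              _ = lam := one_mul _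
        _ ≤ ((K0 * H : ℕ) : ℝ) ^ lam := by
            apply Real.rpow_le_rpow hH0.le _ hlam.le
            push_cast
            nlinarith
    have key := hC H Y hH1 hYlam (F.filter (fun x => Nat.log 2 (ht x) = m)) (by
      intro x hx
      rw [Finset.mem_filter, hF, Finset.mem_filter, hP] at hx
      obtain ⟨⟨-, hx1, hx2, hx3⟩, hxk⟩ := hx
      have hht : ht x ≠ 0 := uy_ht_pos x hx1
      have hlo : 2 ^ m ≤ ht x := by
        have := Nat.pow_log_le_self 2 hht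
        rwa [hxk] at this
      have hup : ht x < 2 ^ (m + 1) := by
        have := Nat.lt_pow_succ_log_self (b := 2) (by norm_num) (ht x)
        rwa [hxk] at this
      refine ⟨hx1, by omega, by rw [hH, pow_succ]; omega, fun i => ⟨(hx2 i).1, ?_⟩⟩
      rw [hYe]
      apply Nat.le_floor
      refine (hx2 i).2.trans ?_
      apply Real.rpow_le_rpow (Nat.cast_nonneg _) _ (hyl i)
      exact_mod_cast (by omega : ht x ≤ H)) 0 (Fin.last (n + 1)) ((H : ℝ) ^ (g * lam)) (by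
      intro h
      have h1 := congrArg Fin.val h
      rw [Fin.val_last, Fin.val_zero] at h1
      omega) (by
      intro c hc0 hct
      refine (uy_Q hn Y hY1 hYm (H : ℝ) hHR (fun i => y i * lam) hYle c hc0 hct).trans
        (le_of_eq ?_)
      congr 1
      rw [hg, ← Finset.sum_mul]
      ring)
    refine key.trans (le_of_eq ?_)
    have e1 : ((2 : ℝ) ^ e) ^ (m + 1) = (H : ℝ) ^ (g * lam) * (H : ℝ) ^ a := by
      rw [← Real.rpow_add hH0, hH]
      push_cast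
      rw [← Real.rpow_natCast, ← Real.rpow_mul (by norm_num), ← Real.rpow_natCast,
        ← Real.rpow_mul (by norm_num), he, ha]
      congr 1
      ring
    have e2 : ((K0 * H : ℕ) : ℝ) ^ (ε * lam) = (K0 : ℝ) ^ a * (H : ℝ) ^ a := by
      rw [ha]
      push_cast
      rw [Real.mul_rpow (by linarith) hH0.le]
    rw [e1, e2]
    ring
  have hmaps : ∀ x ∈ F, Nat.log 2 (ht x) ∈ Finset.range (Nat.log 2 B + 1) := by
    intro x hx
    rw [hF, Finset.mem_filter, hP] at hx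
    rw [Finset.mem_range]
    have := Nat.log_mono_right (b := 2) hx.2.2.2
    omega
  have hre : 1 < (2 : ℝ) ^ e := Real.one_lt_rpow (by norm_num) he0
  have hC0 : 0 ≤ C := by linarith
  have hCK : 0 ≤ C * (K0 : ℝ) ^ a := mul_nonneg hC0 (Real.rpow_nonneg (Nat.cast_nonneg _) _)
  rw [Finset.card_eq_sum_card_fiberwise hmaps]
  push_cast
  calc ∑ m ∈ Finset.range (Nat.log 2 B + 1),
      ((F.filter (fun x => Nat.log 2 (ht x) = m)).card : ℝ)
      ≤ ∑ m ∈ Finset.range (Nat.log 2 B + 1), C * (K0 : ℝ) ^ a * ((2 : ℝ) ^ e) ^ (m + 1) :=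
        Finset.sum_le_sum fun m _ => hfib m
    _ = C * (K0 : ℝ) ^ a * ∑ m ∈ Finset.range (Nat.log 2 B + 1), ((2 : ℝ) ^ e) ^ (m + 1) := by
        rw [Finset.mul_sum]
    _ ≤ C * (K0 : ℝ) ^ a * (((2 : ℝ) ^ e) ^ 2 / ((2 : ℝ) ^ e - 1) *
          ((2 : ℝ) ^ e) ^ (Nat.log 2 B)) :=
        mul_le_mul_of_nonneg_left (uy_geom _ hre _) hCK
    _ ≤ C * (K0 : ℝ) ^ a * (((2 : ℝ) ^ b) ^ 2 / ((2 : ℝ) ^ a - 1) * (B : ℝ) ^ e) := by
        have h1 : ((2 : ℝ) ^ e) ^ (Nat.log 2 B) ≤ (B : ℝ) ^ e := by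
          rw [← Real.rpow_natCast, ← Real.rpow_mul (by norm_num), mul_comm,
            Real.rpow_mul (by norm_num), Real.rpow_natCast]
          apply Real.rpow_le_rpow (by positivity) _ he0.le
          have h2 : 2 ^ Nat.log 2 B ≤ B := Nat.pow_log_le_self 2 (by omega)
          exact_mod_cast h2
        have h2 : ((2 : ℝ) ^ e) ^ 2 / ((2 : ℝ) ^ e - 1) ≤ ((2 : ℝ) ^ b) ^ 2 / ((2 : ℝ) ^ a - 1) := by
          have h3 : (2 : ℝ) ^ e ≤ (2 : ℝ) ^ b :=
            Real.rpow_le_rpow_of_exponent_le (by norm_num) heb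
          have h4 : (2 : ℝ) ^ a ≤ (2 : ℝ) ^ e :=
            Real.rpow_le_rpow_of_exponent_le (by norm_num) hae
          exact div_le_div₀ (by positivity)
            (pow_le_pow_left₀ (by positivity) h3 2) (by linarith) (by linarith)
        refine mul_le_mul_of_nonneg_left (mul_le_mul h2 h1 (by positivity) ?_) hCK
        exact div_nonneg (by positivity) (by linarith)
    _ = _ := by ring

end Pool.Agent.Helper87.TY
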